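import Pool.Agent.Y663.GK.Fin

/-!
# GK: typical elements of `L^p`
-/

set_option autoImplicit false

namespace Pool.Agent.Y663.GK

open MeasureTheory Filter UnitAddTorus Pool.Agent.W792.LL Pool.Agent.W792.WA
open scoped Topology ENNReal

noncomputable section

/-- `P` holds on the intersection of countably many open and dense subsets of `L^p(μ)`. -/
def TypLp {α : Type} [MeasurableSpace α] (μ : Measure α) (p : ℝ≥0∞) (P : (α → ℝ) → Prop) : Prop :=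
  ∃ 𝒪 : ℕ → Set (α → ℝ), (∀ j, (∀ K ∈ 𝒪 j, MemLp K p μ) ∧
    (∀ K ∈ 𝒪 j, ∃ δ : ℝ≥0∞, 0 < δ ∧ ∀ K', MemLp K' p μ → eLpNorm (K' - K) p μ < δ → K' ∈ 𝒪 j) ∧
    ∀ K, MemLp K p μ → ∀ δ : ℝ≥0∞, 0 < δ → ∃ K' ∈ 𝒪 j, eLpNorm (K' - K) p μ < δ) ∧
  ∀ K, (∀ j, K ∈ 𝒪 j) → P K

theorem typ_of {α : Type} [MeasurableSpace α] (μ : Measure α) (p : ℝ≥0∞) [Fact (1 ≤ p)]
    (P : (α → ℝ) → Prop)
    (h : ∃ 𝒢 : Set (Lp ℝ p μ), IsGδ 𝒢 ∧ Dense 𝒢 ∧ ∀ K ∈ 𝒢, P (fun a => K a))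
    (hP : ∀ K K' : α → ℝ, K =ᵐ[μ] K' → P K → P K') : TypLp μ p P := by
  obtain ⟨𝒢, h1, h2, h3⟩ := h
  obtain ⟨U, hU, rfl⟩ := isGδ_iff_eq_iInter_nat.1 h1
  refine ⟨fun j => {K | ∃ hK : MemLp K p μ, hK.toLp K ∈ U j}, fun j => ⟨fun K hK => hK.1, ?_, ?_⟩, ?_⟩
  · rintro K ⟨hK, hKU⟩
    obtain ⟨r, hr, hb⟩ := Metric.isOpen_iff.1 (hU j) _ hKU
    refine ⟨ENNReal.ofReal r, ENNReal.ofReal_pos.2 hr, fun K' hK' hlt => ⟨hK', hb ?_⟩⟩
    rw [Metric.mem_ball, dist_eq_norm, ← MemLp.toLp_sub, Lp.norm_toLp]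
    exact (ENNReal.toReal_lt_of_lt_ofReal hlt)
  · intro K hK δ hδ
    have hd : Dense (U j) := h2.mono (Set.iInter_subset _ j)
    have hδ' : 0 < (min δ 1).toReal :=
      ENNReal.toReal_pos (lt_min hδ one_pos).ne' (ne_top_of_le_ne_top ENNReal.one_ne_top
        (min_le_right _ _))
    obtain ⟨G, hG, hlt⟩ := Metric.dense_iff.1 hd (hK.toLp K) _ hδ'
    refine ⟨fun a => G a, ⟨Lp.memLp G, ?_⟩, ?_⟩
    · rw [Lp.toLp_coeFn]; exact hlt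
    · rw [Metric.mem_ball, dist_eq_norm] at hG
      have e1 : eLpNorm ((fun a => G a) - K) p μ = eLpNorm (G - hK.toLp K : Lp ℝ p μ) p μ := by
        apply eLpNorm_congr_ae
        filter_upwards [Lp.coeFn_sub G (hK.toLp K), hK.coeFn_toLp] with a ha hb
        rw [ha, Pi.sub_apply, Pi.sub_apply, hb]
      rw [e1, ← Lp.enorm_def]
      have h4 : ‖G - hK.toLp K‖ₑ < min δ 1 := by
        rw [← ofReal_norm]
        exact (ENNReal.ofReal_lt_iff_lt_toReal (norm_nonneg _) (ne_top_of_le_ne_top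
          ENNReal.one_ne_top (min_le_right _ _))).2 hG
      exact h4.trans_le (min_le_left _ _)
  · intro K hK
    have hm : MemLp K p μ := (hK 0).1
    exact hP _ _ hm.coeFn_toLp (h3 (hm.toLp K) (Set.mem_iInter.2 fun j => (hK j).2))

theorem noEv_congr {d : ℕ} {K K' : UnitAddTorus (Fin d) → ℝ} (h : K =ᵐ[volume] K')
    {q : (Fin d → ℤ) → ℝ} (hK : NoEv K q) : NoEv K' q := by
  intro E u f g hf hg hE
  refine hK E u f g hf hg ?_
  filter_upwards [hE, h] with k h1 h2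
  rw [h2]
  exact h1

/-- All laws, all couplings. -/
def AllE {d : ℕ} (K : UnitAddTorus (Fin d) → ℝ) : Prop :=
  ∀ (ν : Measure ℝ) [IsProbabilityMeasure ν], (∃ R : ℝ, ∀ᵐ s ∂ν, |s| ≤ R) → (∀ a : ℝ, ν {a} < 1) →
    ∀ lam : ℝ, lam ≠ 0 → ∀ᵐ ω ∂(Measure.infinitePi fun _ : Fin d → ℤ => ν),
      NoEv K (fun x => lam * ω x)

theorem allE_congr {d : ℕ} {K K' : UnitAddTorus (Fin d) → ℝ} (h : K =ᵐ[volume] K')
    (hK : AllE K) : AllE K' := by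
  intro ν _ h1 h2 lam hl
  filter_upwards [hK ν h1 h2 lam hl] with ω hω
  exact noEv_congr h hω

theorem typ_gen (d : ℕ) (p : ℝ≥0∞) (hd : 0 < d) (hp1 : 1 ≤ p) (hp : p < 2) :
    TypLp (volume : Measure (UnitAddTorus (Fin d))) p AllE := by
  have : Fact (1 ≤ p) := ⟨hp1⟩
  exact typ_of _ p _ (fin_gen d p hd hp) fun K K' h hK => allE_congr h hK

theorem typ_lap (d : ℕ) (p : ℝ≥0∞) (hd : 0 < d) (hp1 : 1 ≤ p) (hp : p < 2) :
    TypLp ((volume : Measure (UnitAddTorus (Fin d))).map (lap d)) p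
      (fun f => AllE fun k => f (lap d k)) := by
  have : Fact (1 ≤ p) := ⟨hp1⟩
  refine typ_of _ p _ (fin_lap d p hd hp) fun f f' h hf => allE_congr ?_ hf
  exact (lap_mp d).quasiMeasurePreserving.ae_eq_comp h

end

end Pool.Agent.Y663.GK
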