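import Pool.Agent.Y663.GK.Stm

/-!
# Project GK: Chebyshev inequality in `L^p` (proof by helper768)
-/

set_option autoImplicit false

namespace Pool.Agent.Y663.GK

open MeasureTheory Filter UnitAddTorus Pool.Agent.W792.LL Pool.Agent.W792.WA
open scoped Topology ENNReal ComplexConjugate

lemma cheb_vol (d : ℕ) : IsProbabilityMeasure (volume : Measure (UnitAddTorus (Fin d))) := by
  constructor
  show (Measure.pi fun _ : Fin d => (volume : Measure UnitAddCircle)) Set.univ = 1
  rw [Measure.pi_univ]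
  refine Finset.prod_eq_one fun i _ => ?_
  rw [AddCircle.measure_univ]
  simp

theorem cheb : S_CHEB := by
  intro d p _ δ τ hδ hτ
  refine ⟨δ * τ, by positivity, fun K0 K h => ?_⟩
  have hp : 1 ≤ p := Fact.out
  have := cheb_vol d
  set g := ContinuousMap.toLp (E := ℝ) p volume ℝ K0 - K with hg
  have hgae : (g : UnitAddTorus (Fin d) → ℝ) =ᵐ[volume] fun k => K0 k - K k := by
    have h1 := Lp.coeFn_sub (ContinuousMap.toLp (E := ℝ) p volume ℝ K0) K
    have h2 := ContinuousMap.coeFn_toLp (p := p) (𝕜 := ℝ) volume K0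
    filter_upwards [h1, h2] with k h1 h2
    rw [h1, Pi.sub_apply, h2]
  have hmeas : Measurable fun k => |K k - K0 k| :=
    continuous_abs.measurable.comp
      ((Lp.stronglyMeasurable K).measurable.sub K0.continuous.measurable)
  refine ⟨{k | δ < |K k - K0 k|}, measurableSet_lt measurable_const hmeas, ?_, ?_⟩
  · have hint : ∫⁻ k, ‖g k‖ₑ ≤ ENNReal.ofReal (δ * τ) := by
      rw [← eLpNorm_one_eq_lintegral_enorm]
      calc eLpNorm g 1 volume ≤ eLpNorm g p volume :=
            eLpNorm_le_eLpNorm_of_exponent_le hp (Lp.aestronglyMeasurable g)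
        _ = ENNReal.ofReal ‖g‖ := by
            rw [Lp.norm_def, ENNReal.ofReal_toReal (Lp.eLpNorm_ne_top g)]
        _ ≤ ENNReal.ofReal (δ * τ) := ENNReal.ofReal_le_ofReal h.le
    have hδ' : ENNReal.ofReal δ ≠ 0 := by
      rw [ne_eq, ENNReal.ofReal_eq_zero, not_le]; exact hδ
    have hmk : volume {k | ENNReal.ofReal δ ≤ ‖g k‖ₑ} ≤ ENNReal.ofReal τ := by
      have h1 := mul_meas_ge_le_lintegral₀ (μ := (volume : Measure (UnitAddTorus (Fin d))))
        (f := fun k => ‖g k‖ₑ) (Lp.aestronglyMeasurable g).enorm (ENNReal.ofReal δ)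
      have h2 := h1.trans hint
      rw [ENNReal.ofReal_mul hδ.le] at h2
      exact (ENNReal.mul_le_mul_iff_right hδ' ENNReal.ofReal_ne_top).1 h2
    refine le_trans (measure_mono_ae ?_) hmk
    filter_upwards [hgae] with k hk hk2
    have hk2' : δ < |K k - K0 k| := hk2
    show ENNReal.ofReal δ ≤ ‖g k‖ₑ
    rw [hk, Real.enorm_eq_ofReal_abs, abs_sub_comm]
    exact ENNReal.ofReal_le_ofReal hk2'.le
  · intro k hk
    exact not_lt.1 hk

end Pool.Agent.Y663.GK
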