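import Pool.Agent.Y663.GK.Stm

/-!
# Continuity of the resolvent vector (project GK, job 9262, helper931)
-/

set_option autoImplicit false

namespace Pool.Agent.Y663.GK

open MeasureTheory Filter UnitAddTorus Pool.Agent.W792.LL Pool.Agent.W792.WA
open scoped Topology ENNReal ComplexConjugate

noncomputable section

theorem cont_norm_sq {Γ : Type} (u : l2 Γ) : ‖u‖ ^ 2 = ∑' x, ‖u x‖ ^ 2 := by
  have h := lp.norm_rpow_eq_tsum (p := 2) (by norm_num : 0 < (2 : ℝ≥0∞).toReal) u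
  simpa using h

theorem cont_summable {Γ : Type} (u : l2 Γ) : Summable fun x => ‖u x‖ ^ 2 := by
  have h := (lp.memℓp u).summable (by norm_num : 0 < (2 : ℝ≥0∞).toReal)
  simpa using h

theorem cont (h : S_OPH) (h2 : S_RES) : S_CONT := by
  intro d K0 n η hη q0 hq0
  obtain ⟨v0, E0⟩ := q0
  have hv0 : ∀ x, |v0 x| ≤ n := hq0.1
  set g0 : l2 (Fin d → ℤ) := gv K0 v0 ⟨E0, η⟩ with hg0
  set S : Set (((Fin d → ℤ) → ℝ) × ℝ) := {v : (Fin d → ℤ) → ℝ | ∀ x, |v x| ≤ n} ×ˢ Set.univ with hS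
  -- the estimate
  have key : ∀ q ∈ S, η ^ 2 * ‖gv K0 q.1 ⟨q.2, η⟩ - g0‖ ^ 2
      ≤ ∑' x, ‖(((q.1 x - v0 x) - (q.2 - E0) : ℝ) : ℂ) * g0 x‖ ^ 2 := by
    rintro ⟨v, E⟩ hq
    have hv : ∀ x, |v x| ≤ n := hq.1
    simp only
    set g : l2 (Fin d → ℤ) := gv K0 v ⟨E, η⟩ with hg
    obtain ⟨H, hH1, -, hH3⟩ := h d K0 n v hv
    obtain ⟨hb, -⟩ := hH3 ⟨E, η⟩ hη
    have hs := (h2 d K0 n v ⟨E, η⟩ hv hη).1.2
    have hs0 := (h2 d K0 n v0 ⟨E0, η⟩ hv0 hη).1.2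
    have h3 := hb (g - g0)
    have hr : ∀ x, (H (g - g0) - (⟨E, η⟩ : ℂ) • (g - g0)) x
        = -((((v x - v0 x) - (E - E0) : ℝ) : ℂ) * g0 x) := by
      intro x
      have e1 : (H (g - g0) - (⟨E, η⟩ : ℂ) • (g - g0)) x
          = (H g x - (⟨E, η⟩ : ℂ) * g x) - (H g0 x - (⟨E, η⟩ : ℂ) * g0 x) := by
        rw [map_sub]
        simp only [lp.coeFn_sub, Pi.sub_apply, lp.coeFn_smul, Pi.smul_apply, smul_eq_mul]
        ring
      rw [e1, hH1, hH1]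
      have e2 := hs x
      have e3 := hs0 x
      rw [one_mul] at e2 e3
      have e4 : (⟨E, η⟩ : ℂ) - ⟨E0, η⟩ = ((E - E0 : ℝ) : ℂ) := by
        apply Complex.ext <;> simp
      have e5 : (⟨E, η⟩ : ℂ) = ⟨E0, η⟩ + ((E - E0 : ℝ) : ℂ) := by rw [← e4]; ring
      rw [e2, ← e3, e5]
      push_cast
      ring
    have h4 : ‖H (g - g0) - (⟨E, η⟩ : ℂ) • (g - g0)‖ ^ 2
        = ∑' x, ‖(((v x - v0 x) - (E - E0) : ℝ) : ℂ) * g0 x‖ ^ 2 := by
      rw [cont_norm_sq]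
      refine tsum_congr fun x => ?_
      rw [hr x, norm_neg]
    rw [← h4, ← mul_pow]
    exact pow_le_pow_left₀ (by positivity) h3 2
  -- the majorant tends to zero
  have hlim : Tendsto (fun q : ((Fin d → ℤ) → ℝ) × ℝ =>
      ∑' x, ‖(((q.1 x - v0 x) - (q.2 - E0) : ℝ) : ℂ) * g0 x‖ ^ 2) (𝓝[S] (v0, E0)) (𝓝 0) := by
    have h5 : (0 : ℝ) = ∑' x : Fin d → ℤ, (0 : ℝ) := by simp
    rw [h5]
    refine tendsto_tsum_of_dominated_convergence
      (bound := fun x => (2 * |n| + 1) ^ 2 * ‖g0 x‖ ^ 2) ((cont_summable g0).mul_left _) ?_ ?_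
    · intro x
      have h6 : Continuous fun q : ((Fin d → ℤ) → ℝ) × ℝ =>
          ‖(((q.1 x - v0 x) - (q.2 - E0) : ℝ) : ℂ) * g0 x‖ ^ 2 := by
        fun_prop
      have h7 := (h6.tendsto (v0, E0)).mono_left (nhdsWithin_le_nhds (s := S))
      simpa using h7
    · have h8 : ∀ᶠ q : ((Fin d → ℤ) → ℝ) × ℝ in 𝓝[S] (v0, E0), |q.2 - E0| ≤ 1 := by
        have h9 : Continuous fun q : ((Fin d → ℤ) → ℝ) × ℝ => |q.2 - E0| := by fun_prop
        have h10 : ∀ᶠ q : ((Fin d → ℤ) → ℝ) × ℝ in 𝓝 (v0, E0), |q.2 - E0| < 1 := by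
          refine h9.tendsto (v0, E0) |>.eventually_lt_const ?_
          simp
        exact (h10.filter_mono nhdsWithin_le_nhds).mono fun q hq => hq.le
      filter_upwards [h8, self_mem_nhdsWithin] with q hq1 hq2 x
      have hv : |q.1 x| ≤ n := hq2.1 x
      have h11 : |(q.1 x - v0 x) - (q.2 - E0)| ≤ 2 * |n| + 1 := by
        have a1 := abs_sub (q.1 x - v0 x) (q.2 - E0)
        have a2 := abs_sub (q.1 x) (v0 x)
        have a3 := hv0 x
        have a4 := le_abs_self n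
        linarith
      rw [norm_pow, norm_norm, norm_mul, mul_pow, Complex.norm_real, Real.norm_eq_abs]
      exact mul_le_mul_of_nonneg_right (pow_le_pow_left₀ (abs_nonneg _) h11 2) (by positivity)
  -- conclusion
  have hlim2 : Tendsto (fun q : ((Fin d → ℤ) → ℝ) × ℝ =>
      Real.sqrt (∑' x, ‖(((q.1 x - v0 x) - (q.2 - E0) : ℝ) : ℂ) * g0 x‖ ^ 2) / η)
      (𝓝[S] (v0, E0)) (𝓝 0) := by
    have h12 := (Real.continuous_sqrt.tendsto 0).comp hlim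
    have h13 := h12.div_const η
    simpa using h13
  have hnorm : Tendsto (fun q : ((Fin d → ℤ) → ℝ) × ℝ => ‖gv K0 q.1 ⟨q.2, η⟩ - g0‖)
      (𝓝[S] (v0, E0)) (𝓝 0) := by
    refine squeeze_zero' (Eventually.of_forall fun q => norm_nonneg _) ?_ hlim2
    filter_upwards [self_mem_nhdsWithin] with q hq
    rw [le_div_iff₀ hη]
    refine Real.le_sqrt_of_sq_le ?_
    rw [mul_pow, mul_comm]
    exact key q hq
  exact tendsto_iff_norm_sub_tendsto_zero.2 hnorm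

end

end Pool.Agent.Y663.GK
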