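import Pool.Agent.Y663.GK.Stm

/-!
# Project GK: compactness of the set of laws (S_CPT), by helper950
-/

set_option autoImplicit false

namespace Pool.Agent.Y663.GK

open MeasureTheory Filter UnitAddTorus Pool.Agent.W792.LL Pool.Agent.W792.WA
open scoped Topology ENNReal ComplexConjugate

lemma cpt_cay_cont : Continuous cay := by
  unfold cay
  refine Continuous.div (by fun_prop) (by fun_prop) fun x => ?_
  intro hx
  have h1 := congrArg Complex.im hx
  simp at h1

lemma cpt_cay_norm (x : ℝ) : ‖cay x‖ ≤ 1 := by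
  unfold cay
  rw [norm_div]
  have h1 : ‖(x : ℂ) + Complex.I‖ = ‖(x : ℂ) - Complex.I‖ := by
    have h2 : (x : ℂ) - Complex.I = (starRingEnd ℂ) ((x : ℂ) + Complex.I) := by simp [sub_eq_add_neg]
    rw [h2, Complex.norm_conj]
  rw [h1]
  exact div_self_le_one _

/-- the variance is a continuous function of the law -/
lemma cpt_vr_cont (n : ℝ) : Continuous fun ν : ProbabilityMeasure (Set.Icc (-n) n) =>
    vr ((ν : Measure (Set.Icc (-n) n)).map Subtype.val) := by
  have h1 : Continuous fun ν : ProbabilityMeasure (Set.Icc (-n) n) =>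
      ∫ y : Set.Icc (-n) n, cay (y : ℝ) ∂(ν : Measure (Set.Icc (-n) n)) := by
    rw [continuous_iff_continuousAt]
    intro ν
    let g : BoundedContinuousFunction (Set.Icc (-n) n) ℂ :=
      BoundedContinuousFunction.ofNormedAddCommGroup (fun y : Set.Icc (-n) n => cay (y : ℝ))
        (cpt_cay_cont.comp continuous_subtype_val) 1 (fun y => cpt_cay_norm _)
    exact (ProbabilityMeasure.tendsto_iff_forall_integral_rclike_tendsto ℂ).1
      (tendsto_id (x := 𝓝 ν)) g
  have h2 : (fun ν : ProbabilityMeasure (Set.Icc (-n) n) =>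
      vr ((ν : Measure (Set.Icc (-n) n)).map Subtype.val)) =
      fun ν : ProbabilityMeasure (Set.Icc (-n) n) =>
        1 - ‖∫ y : Set.Icc (-n) n, cay (y : ℝ) ∂(ν : Measure (Set.Icc (-n) n))‖ ^ 2 := by
    funext ν
    unfold vr
    rw [integral_map measurable_subtype_coe.aemeasurable
      cpt_cay_cont.measurable.aestronglyMeasurable]
  rw [h2]
  fun_prop

theorem cpt (h : S_WEAK) : S_CPT := by
  intro Γ _ n κ ε Φ hε hΦ hlim
  have hCcl : IsClosed {ν : ProbabilityMeasure (Set.Icc (-n) n) |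
      κ ≤ vr ((ν : Measure (Set.Icc (-n) n)).map Subtype.val)} :=
    isClosed_le continuous_const (cpt_vr_cont n)
  have hUopen : ∀ j, IsOpen {ν : ProbabilityMeasure (Set.Icc (-n) n) |
      ∫ v, Φ j v ∂(Measure.infinitePi fun _ : Γ => (ν : Measure (Set.Icc (-n) n))) < ε} :=
    fun j => isOpen_lt (h Γ n (Φ j)) continuous_const
  have hcover : {ν : ProbabilityMeasure (Set.Icc (-n) n) |
      κ ≤ vr ((ν : Measure (Set.Icc (-n) n)).map Subtype.val)} ⊆
      ⋃ j, {ν : ProbabilityMeasure (Set.Icc (-n) n) |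
        ∫ v, Φ j v ∂(Measure.infinitePi fun _ : Γ => (ν : Measure (Set.Icc (-n) n))) < ε} := by
    intro ν hν
    have h1 : Tendsto (fun j => ∫ v, Φ j v
        ∂(Measure.infinitePi fun _ : Γ => (ν : Measure (Set.Icc (-n) n)))) atTop
        (𝓝 (∫ _, (0 : ℝ) ∂(Measure.infinitePi fun _ : Γ => (ν : Measure (Set.Icc (-n) n))))) := by
      refine tendsto_integral_of_dominated_convergence (fun _ => (1 : ℝ)) (fun j => ?_)
        (integrable_const _) (fun j => ?_) (hlim ν hν)
      · exact (Φ j).continuous.measurable.aestronglyMeasurable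
      · refine Eventually.of_forall fun v => ?_
        rw [Real.norm_eq_abs, abs_le]
        exact ⟨by linarith [(hΦ j v).1], (hΦ j v).2⟩
    rw [integral_zero] at h1
    obtain ⟨j, hj⟩ := (h1.eventually_lt_const hε).exists
    exact Set.mem_iUnion.2 ⟨j, hj⟩
  obtain ⟨t, ht⟩ := hCcl.isCompact.elim_finite_subcover _ hUopen hcover
  refine ⟨t.sup id, fun ν hν => ?_⟩
  obtain ⟨j, hj⟩ := Set.mem_iUnion.1 (ht hν)
  obtain ⟨hjt, hj'⟩ := Set.mem_iUnion.1 hj
  exact ⟨j, Finset.le_sup (f := id) hjt, le_of_lt hj'⟩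

end Pool.Agent.Y663.GK
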