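import Pool.Agent.Y663.GK.Stm
import Pool.Agent.W918.LL.Opr

/-!
# Project GK: Fourier series on the torus for `ℓ²` vectors

Author: helper153. The multiplication part uses `Pool.Agent.W918.LL.Opr`.
-/

set_option autoImplicit false

namespace Pool.Agent.Y663.GK

open MeasureTheory Filter UnitAddTorus Pool.Agent.W792.LL Pool.Agent.W792.WA
open scoped Topology ENNReal ComplexConjugate

noncomputable section

/-- The Haar measure of the torus, in the form of Mathlib's Fourier theory. -/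
def ft_mu (d : ℕ) : Measure (UnitAddTorus (Fin d)) :=
  Measure.pi fun _ => AddCircle.haarAddCircle

theorem ft_vol (d : ℕ) : (volume : Measure (UnitAddTorus (Fin d))) = ft_mu d := by
  rw [volume_pi]
  unfold ft_mu
  congr 1
  funext i
  rw [AddCircle.volume_eq_smul_haarAddCircle]
  simp

section loc

local instance ft_inst : MeasureSpace UnitAddCircle := ⟨AddCircle.haarAddCircle⟩

variable {d : ℕ}

theorem ft_congr {f g : UnitAddTorus (Fin d) → ℂ} (h : f =ᵐ[ft_mu d] g) (x : Fin d → ℤ) :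
    mFourierCoeff f x = mFourierCoeff g x := by
  unfold mFourierCoeff
  refine integral_congr_ae ?_
  have h' : f =ᵐ[(volume : Measure (UnitAddTorus (Fin d)))] g := h
  filter_upwards [h'] with t ht
  rw [ht]

theorem ft_ex (u : l2 (Fin d → ℤ)) : ∃ f : UnitAddTorus (Fin d) → ℂ, MemLp f 2 (ft_mu d) ∧
    (∀ x, mFourierCoeff f x = u x) ∧ ∫ k, ‖f k‖ ^ 2 ∂(ft_mu d) = ‖u‖ ^ 2 := by
  set g : Lp ℂ 2 (volume : Measure (UnitAddTorus (Fin d))) :=
    (mFourierBasis (d := Fin d)).repr.symm u with hg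
  have hc : ∀ x, mFourierCoeff g x = u x := fun x => by
    rw [← mFourierBasis_repr, hg, LinearIsometryEquiv.apply_symm_apply]
  refine ⟨g, Lp.memLp g, hc, ?_⟩
  have h1 := hasSum_sq_mFourierCoeff g
  simp only [hc] at h1
  have h2 := lp.hasSum_norm (p := 2) (by norm_num) u
  simp only [ENNReal.toReal_ofNat, Real.rpow_two] at h2
  exact h1.unique h2

theorem ft_repr {f : UnitAddTorus (Fin d) → ℂ} (hf : MemLp f 2 (ft_mu d)) (x : Fin d → ℤ) :
    (mFourierBasis (d := Fin d)).repr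
      (MemLp.toLp (μ := (volume : Measure (UnitAddTorus (Fin d)))) f hf) x = mFourierCoeff f x := by
  rw [mFourierBasis_repr]
  exact ft_congr (MemLp.coeFn_toLp (μ := (volume : Measure (UnitAddTorus (Fin d)))) hf) x

theorem ft_uniq {f g : UnitAddTorus (Fin d) → ℂ} (hf : MemLp f 2 (ft_mu d))
    (hg : MemLp g 2 (ft_mu d)) (h : ∀ x, mFourierCoeff f x = mFourierCoeff g x) :
    f =ᵐ[ft_mu d] g := by
  have h1 : MemLp.toLp (μ := (volume : Measure (UnitAddTorus (Fin d)))) f hf =
      MemLp.toLp (μ := (volume : Measure (UnitAddTorus (Fin d)))) g hg := by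
    apply (mFourierBasis (d := Fin d)).repr.injective
    apply lp.ext
    funext x
    rw [ft_repr hf, ft_repr hg, h x]
  have h2 : f =ᵐ[(volume : Measure (UnitAddTorus (Fin d)))] g := by
    have a1 := MemLp.coeFn_toLp (μ := (volume : Measure (UnitAddTorus (Fin d)))) hf
    have a2 := MemLp.coeFn_toLp (μ := (volume : Measure (UnitAddTorus (Fin d)))) hg
    rw [h1] at a1
    exact a1.symm.trans a2
  exact h2

theorem ft_sub {f g : UnitAddTorus (Fin d) → ℂ} (hf : MemLp f 2 (ft_mu d))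
    (hg : MemLp g 2 (ft_mu d)) (x : Fin d → ℤ) :
    mFourierCoeff (fun k => f k - g k) x = mFourierCoeff f x - mFourierCoeff g x := by
  have h1 : MemLp (fun k => f k - g k) 2 (ft_mu d) := hf.sub hg
  rw [← ft_repr hf, ← ft_repr hg, ← ft_repr h1]
  have h2 : MemLp.toLp (μ := (volume : Measure (UnitAddTorus (Fin d)))) (fun k => f k - g k) h1 =
      MemLp.toLp (μ := (volume : Measure (UnitAddTorus (Fin d)))) f hf -
        MemLp.toLp (μ := (volume : Measure (UnitAddTorus (Fin d)))) g hg :=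
    MemLp.toLp_sub (μ := (volume : Measure (UnitAddTorus (Fin d)))) hf hg
  rw [h2, map_sub]
  rfl

theorem ft_pars {f g : UnitAddTorus (Fin d) → ℂ} (hf : MemLp f 2 (ft_mu d))
    (hg : MemLp g 2 (ft_mu d)) :
    HasSum (fun x => conj (mFourierCoeff f x) * mFourierCoeff g x)
      (∫ k, conj (f k) * g k ∂(ft_mu d)) := by
  have h1 := hasSum_prod_mFourierCoeff
    (MemLp.toLp (μ := (volume : Measure (UnitAddTorus (Fin d)))) f hf)
    (MemLp.toLp (μ := (volume : Measure (UnitAddTorus (Fin d)))) g hg)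
  have a1 := MemLp.coeFn_toLp (μ := (volume : Measure (UnitAddTorus (Fin d)))) hf
  have a2 := MemLp.coeFn_toLp (μ := (volume : Measure (UnitAddTorus (Fin d)))) hg
  have e1 : ∀ x, mFourierCoeff (MemLp.toLp (μ := (volume : Measure (UnitAddTorus (Fin d)))) f hf) x
      = mFourierCoeff f x := fun x => ft_congr a1 x
  have e2 : ∀ x, mFourierCoeff (MemLp.toLp (μ := (volume : Measure (UnitAddTorus (Fin d)))) g hg) x
      = mFourierCoeff g x := fun x => ft_congr a2 x
  simp only [e1, e2] at h1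
  have e3 : ∫ k, conj (MemLp.toLp (μ := (volume : Measure (UnitAddTorus (Fin d)))) f hf k) *
      MemLp.toLp (μ := (volume : Measure (UnitAddTorus (Fin d)))) g hg k =
      ∫ k, conj (f k) * g k ∂(ft_mu d) := by
    refine integral_congr_ae (μ := (volume : Measure (UnitAddTorus (Fin d)))) ?_
    filter_upwards [a1, a2] with k h2 h3
    rw [h2, h3]
  rwa [e3] at h1

theorem ft_mem {f : UnitAddTorus (Fin d) → ℂ} (hf : MemLp f 2 (ft_mu d))
    (K : C(UnitAddTorus (Fin d), ℂ)) : MemLp (fun k => K k * f k) 2 (ft_mu d) := by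
  refine hf.of_le_mul (c := ‖K‖) ?_ (Filter.Eventually.of_forall fun t => ?_)
  · exact (K.continuous.aestronglyMeasurable).mul hf.aestronglyMeasurable
  · rw [norm_mul]
    gcongr
    exact K.norm_coe_le_norm t

theorem ft_mul {f : UnitAddTorus (Fin d) → ℂ} (hf : MemLp f 2 (ft_mu d))
    (K : C(UnitAddTorus (Fin d), ℂ)) (x : Fin d → ℤ) :
    HasSum (fun y => mFourierCoeff K (x - y) * mFourierCoeff f y)
      (mFourierCoeff (fun k => K k * f k) x) := by
  set F := MemLp.toLp (μ := (volume : Measure (UnitAddTorus (Fin d)))) f hf with hF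
  have h1 := Pool.Agent.W918.LL.opT_hasSum K ((mFourierBasis (d := Fin d)).repr F) x
  have h2 : ∀ y, (mFourierBasis (d := Fin d)).repr F y = mFourierCoeff f y := fun y =>
    ft_repr hf y
  simp only [h2] at h1
  have h3 : Pool.Agent.W918.LL.opT K ((mFourierBasis (d := Fin d)).repr F) x =
      mFourierCoeff (fun k => K k * f k) x := by
    rw [Pool.Agent.W918.LL.opT_apply, mFourierBasis_repr, LinearIsometryEquiv.symm_apply_apply]
    have a1 := MemLp.coeFn_toLp (μ := (volume : Measure (UnitAddTorus (Fin d)))) hf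
    have a2 := Pool.Agent.W918.LL.mulC_coe K F
    refine ft_congr ?_ x
    have h4 : (Pool.Agent.W918.LL.mulC K F : UnitAddTorus (Fin d) → ℂ)
        =ᵐ[(volume : Measure (UnitAddTorus (Fin d)))] fun k => K k * f k := by
      filter_upwards [a1, a2] with k h5 h6
      rw [h6, hF, h5]
    exact h4
  rwa [h3] at h1

end loc

theorem ft_spec {d : ℕ} (u : l2 (Fin d → ℤ)) : MemLp (ft u) 2 (ft_mu d) ∧
    (∀ x, mFourierCoeff (ft u) x = u x) ∧ ∫ k, ‖ft u k‖ ^ 2 ∂(ft_mu d) = ‖u‖ ^ 2 := by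
  obtain ⟨f, h1, h2, h3⟩ := ft_ex u
  have h : ∃ f : UnitAddTorus (Fin d) → ℂ, MemLp f 2 volume ∧ ∀ x, mFourierCoeff f x = u x := by
    refine ⟨f, ?_, h2⟩
    rw [ft_vol]
    exact h1
  have hs : MemLp (ft u) 2 (ft_mu d) ∧ ∀ x, mFourierCoeff (ft u) x = u x := by
    unfold ft
    rw [dif_pos h, ← ft_vol]
    exact Classical.choose_spec h
  refine ⟨hs.1, hs.2, ?_⟩
  rw [← h3]
  have h4 := ft_uniq hs.1 h1 fun x => by rw [hs.2, h2]
  refine integral_congr_ae ?_
  filter_upwards [h4] with k hk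
  rw [hk]

theorem ftm : S_FT := by
  intro d
  refine ⟨fun u => ?_, fun u w => ?_, fun f hf => ?_, fun f g hf hg => ?_, fun K0 f hf => ?_⟩
  · rw [ft_vol]
    exact ft_spec u
  · rw [ft_vol]
    have hu := ft_spec u
    have hw := ft_spec w
    have huw := ft_spec (u - w)
    refine ft_uniq huw.1 (hu.1.sub hw.1) fun x => ?_
    rw [huw.2.1]
    rw [ft_sub hu.1 hw.1, hu.2.1, hw.2.1]
    rfl
  · rw [ft_vol] at hf ⊢
    obtain ⟨u, hu⟩ : ∃ u : l2 (Fin d → ℤ), ∀ x, mFourierCoeff f x = u x :=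
      ⟨_, fun x => (ft_repr hf x).symm⟩
    refine ⟨u, hu, ft_uniq hf (ft_spec u).1 fun x => ?_⟩
    rw [(ft_spec u).2.1, hu]
  · rw [ft_vol] at hf hg ⊢
    exact ft_pars hf hg
  · rw [ft_vol] at hf ⊢
    set K : C(UnitAddTorus (Fin d), ℂ) := ⟨fun k => (K0 k : ℂ), by fun_prop⟩ with hK
    exact ⟨ft_mem hf K, fun x => ft_mul hf K x⟩

end

end Pool.Agent.Y663.GK
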