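import Pool.Agent.Y663.GK.Stm

/-!
# Project GK: density of the kinetic energies with absolutely continuous spectrum

(helper155)
-/

set_option autoImplicit false

namespace Pool.Agent.Y663.GK

open MeasureTheory Filter UnitAddTorus Pool.Agent.W792.LL Pool.Agent.W792.WA
open scoped Topology ENNReal ComplexConjugate

theorem dense_prob (d : ℕ) : IsProbabilityMeasure (volume : Measure (UnitAddTorus (Fin d))) := by
  have : IsProbabilityMeasure (volume : Measure UnitAddCircle) := ⟨UnitAddCircle.measure_univ⟩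
  exact inferInstanceAs (IsProbabilityMeasure
    (Measure.pi fun _ : Fin d => (volume : Measure UnitAddCircle)))

theorem dense_norm {d : ℕ} (p : ℝ≥0∞) [Fact (1 ≤ p)] (q c : ℝ) (hc : 0 ≤ c) (hq : 1 < q)
    (hpq : p ≤ ENNReal.ofReal q) (G : C(UnitAddTorus (Fin d), ℝ))
    (hG : ∫ k, |G k| ^ q ≤ c ^ q) :
    ‖ContinuousMap.toLp (E := ℝ) p volume ℝ G‖ ≤ c := by
  have hq0 : ENNReal.ofReal q ≠ 0 := by
    rw [ne_eq, ENNReal.ofReal_eq_zero, not_le]
    linarith
  have := dense_prob d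
  have hm : MemLp (fun k => G k) (ENNReal.ofReal q) volume :=
    G.continuous.memLp_of_hasCompactSupport (HasCompactSupport.of_compactSpace _)
  have h1 : eLpNorm (fun k => G k) p volume ≤ ENNReal.ofReal c := by
    refine (eLpNorm_le_eLpNorm_of_exponent_le hpq hm.1).trans ?_
    rw [hm.eLpNorm_eq_integral_rpow_norm hq0 ENNReal.ofReal_ne_top,
      ENNReal.toReal_ofReal (by linarith)]
    apply ENNReal.ofReal_le_ofReal
    simp only [Real.norm_eq_abs]
    calc (∫ k, |G k| ^ q) ^ q⁻¹ ≤ (c ^ q) ^ q⁻¹ := by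
          apply Real.rpow_le_rpow (integral_nonneg fun k => by positivity) hG
          positivity
      _ = c := by
          rw [← Real.rpow_mul hc, mul_inv_cancel₀ (by linarith), Real.rpow_one]
  rw [Lp.norm_def, eLpNorm_congr_ae (ContinuousMap.coeFn_toLp (𝕜 := ℝ) volume G)]
  exact ENNReal.toReal_le_of_le_ofReal hc h1

theorem dense (h : Pool.Agent.Y663.W5.S_F5) : S_DENSE := by
  intro d p _ n ε K1 hd hp hn hε
  have hp' : p ≠ ⊤ := (hp.trans_le le_top).ne
  obtain ⟨Kc, hKc⟩ : ∃ Kc : C(UnitAddTorus (Fin d), ℝ),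
      ‖ContinuousMap.toLp (E := ℝ) p volume ℝ Kc - K1‖ < ε / 2 := by
    have h1 : DenseRange (ContinuousMap.toLp (E := ℝ) p
        (volume : Measure (UnitAddTorus (Fin d))) ℝ) := ContinuousMap.toLp_denseRange ℝ _ ℝ hp'
    obtain ⟨Kc, hKc⟩ := h1.exists_dist_lt K1 (half_pos hε)
    refine ⟨Kc, ?_⟩
    rw [← dist_eq_norm, dist_comm]
    exact hKc
  have hp2 : p.toReal < 2 := by
    have h1 := (ENNReal.toReal_lt_toReal hp' ENNReal.ofNat_ne_top).2 hp
    exact h1.trans_eq (by simp)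
  set q : ℝ := max p.toReal (3 / 2) with hq
  have hq1 : 1 < q := lt_of_lt_of_le (by norm_num) (le_max_right _ _)
  have hq2 : q < 2 := max_lt hp2 (by norm_num)
  have hpq : p ≤ ENNReal.ofReal q := by
    rw [ENNReal.le_ofReal_iff_toReal_le hp' (by linarith)]
    exact le_max_left _ _
  have hn' : (0 : ℝ) < n := by exact_mod_cast hn
  obtain ⟨g, -, -, hg, hν⟩ := h d Kc (-(n : ℝ) - 1) (n + 1) q (1 / n) ((ε / 3) ^ q) hd
    (by linarith) hq1 hq2 (by positivity) (by positivity)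
  refine ⟨Kc + gK g d, ?_, fun ν _ hv => hν ν hv⟩
  have h2 : ‖ContinuousMap.toLp (E := ℝ) p volume ℝ (gK g d)‖ ≤ ε / 3 :=
    dense_norm p q (ε / 3) (by positivity) hq1 hpq (gK g d) hg
  rw [map_add, add_sub_right_comm]
  calc _ ≤ ‖ContinuousMap.toLp (E := ℝ) p volume ℝ Kc - K1‖ +
        ‖ContinuousMap.toLp (E := ℝ) p volume ℝ (gK g d)‖ := norm_add_le _ _
    _ < ε := by linarith

end Pool.Agent.Y663.GK
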