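import Pool.Agent.Y663.GK.Gen
import Pool.Agent.Y663.GK.Dense

/-!
# GK: generic functions of the Laplacian
-/

set_option autoImplicit false

namespace Pool.Agent.Y663.GK

open MeasureTheory Filter UnitAddTorus Pool.Agent.W792.LL Pool.Agent.W792.WA
open scoped Topology ENNReal ComplexConjugate BoundedContinuousFunction

noncomputable section

/-- The density of states measure of `-Δ`. -/
def dos (d : ℕ) : Measure ℝ := (volume : Measure (UnitAddTorus (Fin d))).map (lap d)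

lemma lap_mp (d : ℕ) : MeasurePreserving (lap d) (volume : Measure (UnitAddTorus (Fin d))) (dos d) :=
  ⟨(lap d).continuous.measurable, rfl⟩

instance dos_prob (d : ℕ) : IsProbabilityMeasure (dos d) := by
  have := dense_prob d
  exact Measure.isProbabilityMeasure_map (lap d).continuous.measurable.aemeasurable

theorem gen_lap (h5 : Pool.Agent.Y663.W5.S_F5) (hK : S_KEY) (hT : S_TRANSL) (hV : S_VR) (d : ℕ)
    (p : ℝ≥0∞) [Fact (1 ≤ p)] (hd : 0 < d) (hp : p < 2) :
    ∃ 𝒢 : Set (Lp ℝ p (dos d)), IsGδ 𝒢 ∧ Dense 𝒢 ∧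
      ∀ f ∈ 𝒢, ∀ (ν : Measure ℝ) [IsProbabilityMeasure ν],
        (∃ R : ℝ, ν (Set.Icc (-R) R)ᶜ = 0) → (∀ a : ℝ, ν {a} < 1) →
        ∀ᵐ v ∂(Pn ν (Fin d → ℤ)), ∀ (E : ℝ) (φ h : UnitAddTorus (Fin d) → ℂ),
          Eig (fun k => f (lap d k)) v E φ h → φ =ᵐ[volume] 0 := by
  have hiso := Lp.isometry_compMeasurePreserving (E := ℝ) (p := p) (lap_mp d)
  have hD : ∀ n : ℕ, 0 < n → Dense {f : Lp ℝ p (dos d) | ∃ K0 : C(UnitAddTorus (Fin d), ℝ),
      Lp.compMeasurePreserving (lap d) (lap_mp d) f = ContinuousMap.toLp (E := ℝ) p volume ℝ K0 ∧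
      ∀ (ν : Measure ℝ) [IsProbabilityMeasure ν], 1 / (n : ℝ) ≤ vr ν →
        ∀ᵐ v ∂(Pn ν (Fin d → ℤ)), ACIK K0 1 v (-(n : ℝ) - 1) (n + 1)} := by
    intro n hn
    rw [Metric.dense_iff]
    intro f1 ε hε
    have hp' : p ≠ ⊤ := (hp.trans_le le_top).ne
    obtain ⟨fc, hfc⟩ : ∃ fc : ℝ →ᵇ ℝ,
        ‖BoundedContinuousFunction.toLp (E := ℝ) p (dos d) ℝ fc - f1‖ < ε / 2 := by
      have h1 : DenseRange (BoundedContinuousFunction.toLp (E := ℝ) p (dos d) ℝ) :=
        BoundedContinuousFunction.toLp_denseRange ℝ _ ℝ hp'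
      obtain ⟨fc, hfc⟩ := h1.exists_dist_lt f1 (half_pos hε)
      refine ⟨fc, ?_⟩
      rw [← dist_eq_norm, dist_comm]
      exact hfc
    have hp2 : p.toReal < 2 := by
      have h1 := (ENNReal.toReal_lt_toReal hp' ENNReal.ofNat_ne_top).2 hp
      exact h1.trans_eq (by simp)
    set q : ℝ := max p.toReal (3 / 2) with hq
    have hq1 : 1 < q := lt_of_lt_of_le (by norm_num) (le_max_right _ _)
    have hq2 : q < 2 := max_lt hp2 (by norm_num)
    have hpq : p ≤ ENNReal.ofReal q := by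
      rw [ENNReal.le_ofReal_iff_toReal_le hp' (by linarith)]
      exact le_max_left _ _
    have hn' : (0 : ℝ) < n := by exact_mod_cast hn
    obtain ⟨g, ⟨B, hB⟩, -, hg, hν⟩ := h5 d (gK fc.toContinuousMap d) (-(n : ℝ) - 1) (n + 1) q (1 / n)
      ((ε / 3) ^ q) hd (by linarith) hq1 hq2 (by positivity) (by positivity)
    have h2 : ‖ContinuousMap.toLp (E := ℝ) p volume ℝ (gK g d)‖ ≤ ε / 3 :=
      dense_norm p q (ε / 3) (by positivity) hq1 hpq (gK g d) hg
    set gb : ℝ →ᵇ ℝ := BoundedContinuousFunction.ofNormedAddCommGroup g g.continuous B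
      (fun t => by rw [Real.norm_eq_abs]; exact hB t) with hgb
    have hcomp : ∀ F : ℝ →ᵇ ℝ, Lp.compMeasurePreserving (lap d) (lap_mp d)
        (BoundedContinuousFunction.toLp (E := ℝ) p (dos d) ℝ F)
          = ContinuousMap.toLp (E := ℝ) p volume ℝ (gK F.toContinuousMap d) := by
      intro F
      apply Lp.ext
      have e1 := Lp.coeFn_compMeasurePreserving
        (BoundedContinuousFunction.toLp (E := ℝ) p (dos d) ℝ F) (lap_mp d)
      have e2 := (lap_mp d).quasiMeasurePreserving.ae_eq_comp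
        (BoundedContinuousFunction.coeFn_toLp (p := p) (𝕜 := ℝ) (dos d) F)
      have e3 := ContinuousMap.coeFn_toLp (p := p) (𝕜 := ℝ)
        (volume : Measure (UnitAddTorus (Fin d))) (gK F.toContinuousMap d)
      filter_upwards [e1, e2, e3] with k h1 h2 h3
      rw [h1, h3]
      exact h2
    refine ⟨BoundedContinuousFunction.toLp (E := ℝ) p (dos d) ℝ (fc + gb), ?_,
      gK fc.toContinuousMap d + gK g d, ?_, fun ν _ hv => hν ν hv⟩
    · rw [Metric.mem_ball, dist_eq_norm, map_add, add_sub_right_comm]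
      have h3 : ‖BoundedContinuousFunction.toLp (E := ℝ) p (dos d) ℝ gb‖ ≤ ε / 3 := by
        rw [← Lp.norm_compMeasurePreserving _ (lap_mp d), hcomp]
        exact h2
      calc _ ≤ _ := norm_add_le _ _
        _ < ε := by linarith
    · rw [hcomp]
      rfl
  obtain ⟨𝒢, h1, h2, h3⟩ := gen_abs hK hT hV d p (Lp ℝ p (dos d))
    (Lp.compMeasurePreserving (lap d) (lap_mp d)) hiso.continuous hD
  refine ⟨𝒢, h1, h2, fun f hf ν _ hR hν => ?_⟩
  filter_upwards [h3 f hf ν hR hν] with v hv E φ h hE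
  refine hv E φ h ⟨hE.1, hE.2.1, hE.2.2.1, ?_⟩
  filter_upwards [hE.2.2.2, Lp.coeFn_compMeasurePreserving f (lap_mp d)] with k hk hk2
  rw [hk2]
  exact hk

end

end Pool.Agent.Y663.GK
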