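import Pool.Agent.Y663.GK.Stm
import Pool.Agent.W683.WA.Symb
import Pool.Agent.W792.LL.Dia

/-!
# Project GK: the operator `K0(-i∇) + v` on `ℓ²` (by helper141)
-/

set_option autoImplicit false

namespace Pool.Agent.Y663.GK

open MeasureTheory Filter UnitAddTorus Pool.Agent.W792.LL Pool.Agent.W792.WA
open scoped Topology ENNReal ComplexConjugate

noncomputable section

/-- the resolvent bound for a symmetric operator -/
theorem oph_core {V : Type} [NormedAddCommGroup V] [InnerProductSpace ℂ V] [CompleteSpace V]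
    (H : V →L[ℂ] V) (hs : ∀ a b : V, inner ℂ (H a) b = inner ℂ a (H b)) (z : ℂ) (hz : 0 < z.im) :
    (∀ u : V, z.im * ‖u‖ ≤ ‖H u - z • u‖) ∧ ∀ f : V, ∃ u : V, H u - z • u = f := by
  constructor
  · intro u
    rcases (norm_nonneg u).eq_or_lt with h0 | h0
    · rw [← h0, mul_zero]; exact norm_nonneg _
    · have h1 : (inner ℂ u (H u) : ℂ).im = 0 := by
        have h2 : (starRingEnd ℂ) (inner ℂ u (H u) : ℂ) = inner ℂ u (H u) := by
          rw [inner_conj_symm]; exact hs u u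
        exact Complex.conj_eq_iff_im.1 h2
      have h2 : (inner ℂ u (H u - z • u) : ℂ).im = -(z.im * ‖u‖ ^ 2) := by
        rw [inner_sub_right, inner_smul_right, inner_self_eq_norm_sq_to_K, Complex.sub_im, h1]
        have : ((‖u‖ : ℂ) ^ 2) = ((‖u‖ ^ 2 : ℝ) : ℂ) := by push_cast; rfl
        simp only [Complex.coe_algebraMap]
        rw [this, Complex.im_mul_ofReal]
        ring
      have h3 : z.im * ‖u‖ ^ 2 ≤ ‖u‖ * ‖H u - z • u‖ := by
        have h4 := (Complex.abs_im_le_norm _).trans (norm_inner_le_norm (𝕜 := ℂ) u (H u - z • u))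
        rw [h2, abs_neg, abs_of_nonneg (by positivity)] at h4
        exact h4
      have h5 : z.im * ‖u‖ * ‖u‖ ≤ ‖H u - z • u‖ * ‖u‖ := by
        calc z.im * ‖u‖ * ‖u‖ = z.im * ‖u‖ ^ 2 := by ring
          _ ≤ _ := by rw [mul_comm ‖H u - z • u‖]; exact h3
      exact le_of_mul_le_mul_right h5 h0
  · have hsa : IsSelfAdjoint H :=
      ContinuousLinearMap.isSelfAdjoint_iff_isSymmetric.2 fun a b => hs a b
    have hsp : z ∉ spectrum ℂ H := by
      intro hmem
      have h1 := hsa.mem_spectrum_eq_re hmem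
      rw [h1] at hz
      simp at hz
    rw [spectrum.notMem_iff] at hsp
    obtain ⟨U, hU⟩ := hsp
    intro f
    refine ⟨-((↑U⁻¹ : V →L[ℂ] V) f), ?_⟩
    have h1 : (U : V →L[ℂ] V) ((↑U⁻¹ : V →L[ℂ] V) f) = f := by
      have h2 : ((U : V →L[ℂ] V) * (↑U⁻¹ : V →L[ℂ] V)) f = (1 : V →L[ℂ] V) f := by
        rw [Units.mul_inv]
      exact h2
    rw [hU] at h1
    rw [ContinuousLinearMap.sub_apply, ContinuousLinearMap.algebraMap_apply] at h1
    rw [map_neg, smul_neg]
    rw [sub_neg_eq_add, neg_add_eq_sub]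
    exact h1

/-- multiplication by a bounded real function -/
theorem oph_dia {Γ : Type} (n : ℝ) (v : Γ → ℝ) (hv : ∀ x, |v x| ≤ n) :
    ∃ D : l2 Γ →L[ℂ] l2 Γ, ∀ (u : l2 Γ) (x : Γ), D u x = (v x : ℂ) * u x := by
  have hn : 0 < |n| + 1 := by positivity
  have h := Pool.Agent.W792.LL.DiaP.main Γ (fun x => ((v x / (|n| + 1) : ℝ) : ℂ)) (fun x => by
    rw [Complex.norm_real, Real.norm_eq_abs, abs_div, abs_of_pos hn, div_le_one hn]
    exact (hv x).trans ((le_abs_self n).trans (by linarith)))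
  refine ⟨((|n| + 1 : ℝ) : ℂ) • dia (fun x => ((v x / (|n| + 1) : ℝ) : ℂ)), fun u x => ?_⟩
  rw [ContinuousLinearMap.smul_apply, lp.coeFn_smul, Pi.smul_apply, h.1 u x, smul_eq_mul,
    ← mul_assoc, ← Complex.ofReal_mul, mul_div_cancel₀ _ hn.ne']

theorem oph : S_OPH := by
  intro d K0 n v hv
  obtain ⟨D, hD⟩ := oph_dia n v hv
  obtain ⟨k, hk⟩ : ∃ k : C(UnitAddTorus (Fin d), ℂ), ∀ t, k t = (K0 t : ℂ) :=
    ⟨⟨fun t => (K0 t : ℂ), by fun_prop⟩, fun t => rfl⟩
  have hkf : (⇑k : UnitAddTorus (Fin d) → ℂ) = fun t => (K0 t : ℂ) := funext hk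
  have hstar : star k = k := by
    ext t
    rw [ContinuousMap.star_apply, hk, Complex.star_def, Complex.conj_ofReal]
  have hsym : ∀ a b : l2 (Fin d → ℤ),
      inner ℂ ((opr k + D) a) b = inner ℂ a ((opr k + D) b) := by
    intro a b
    have h1 : (inner ℂ (opr k a) b : ℂ) = inner ℂ a (opr k b) := by
      have h2 := (Pool.Agent.W683.WA.main d).1 k 1 a b
      rw [hstar, mul_one, (Pool.Agent.W918.LL.main d k k).2.2.2.2.2.1] at h2
      exact h2
    have h3 : (inner ℂ (D a) b : ℂ) = inner ℂ a (D b) := by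
      rw [lp.inner_eq_tsum, lp.inner_eq_tsum]
      congr 1
      funext x
      rw [hD, hD]
      simp only [RCLike.inner_apply, map_mul, Complex.conj_ofReal]
      ring
    rw [ContinuousLinearMap.add_apply, ContinuousLinearMap.add_apply, inner_add_left,
      inner_add_right, h1, h3]
  refine ⟨opr k + D, fun u x => ?_, hsym, fun z hz => oph_core _ hsym z hz⟩
  rw [ContinuousLinearMap.add_apply, lp.coeFn_add, Pi.add_apply, hD,
    ((Pool.Agent.W918.LL.main d k k).1 u x).2]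
  unfold hopK
  rw [hkf]

end

end Pool.Agent.Y663.GK
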