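import Pool.Agent.Y663.GK.Stm

/-!
# Project GK: Green identity for the resolvent vector in momentum space (helper71)
-/

set_option autoImplicit false

namespace Pool.Agent.Y663.GK

open MeasureTheory Filter UnitAddTorus Pool.Agent.W792.LL Pool.Agent.W792.WA
open scoped Topology ENNReal ComplexConjugate

theorem pair_int {d : ℕ} {G f : UnitAddTorus (Fin d) → ℂ} (hG : MemLp G 2 volume)
    (hf : MemLp f 2 volume) : Integrable fun k => conj (G k) * f k := by
  have h1 : MemLp (fun k => conj (G k)) 2 volume := hG.star
  exact h1.integrable_mul hf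

/-- The pairing identity: Green's formula for the resolvent vector. -/
theorem pair (h1 : S_FT) (h2 : S_RES) : S_PAIR := by
  intro d K0 n v z f h hv hz hf hh hvf
  obtain ⟨F1, F2, F3, F4, F5⟩ := h1 d
  obtain ⟨⟨hs, hsol⟩, -, -, -⟩ := h2 d K0 n v z hv hz
  obtain ⟨hG, hGc, -⟩ := F1 (gv K0 v z)
  obtain ⟨G, hGd⟩ : ∃ G, G = ft (gv K0 v z) := ⟨_, rfl⟩
  rw [← hGd] at hG hGc ⊢
  obtain ⟨hKG, hKGc⟩ := F5 K0 G hG
  have hA := F4 _ f hKG hf
  have hB := F4 G f hG hf
  have hC := F4 G h hG hh
  have hsum := (hA.sub (hB.mul_left (conj z))).add hC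
  have hterm : ∀ x, conj (mFourierCoeff (fun k => (K0 k : ℂ) * G k) x) * mFourierCoeff f x -
      conj z * (conj (mFourierCoeff G x) * mFourierCoeff f x) +
      conj (mFourierCoeff G x) * mFourierCoeff h x =
      if x = 0 then mFourierCoeff f 0 else 0 := by
    intro x
    have e1 := (hKGc x).tsum_eq
    have e2 := hsol x
    beta_reduce at e2
    simp only [hGc] at e1
    rw [e1, one_mul] at e2
    have e3 : conj (mFourierCoeff (fun k => (K0 k : ℂ) * G k) x) -
        conj z * conj (mFourierCoeff G x) + conj (mFourierCoeff G x) * (v x : ℂ) =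
        if x = 0 then 1 else 0 := by
      have e4 := congrArg (starRingEnd ℂ) e2
      rw [map_sub, map_add, map_mul, map_mul, Complex.conj_ofReal, ← hGc x] at e4
      have e5 : (starRingEnd ℂ) (if x = 0 then (1 : ℂ) else 0) = if x = 0 then 1 else 0 := by
        split_ifs
        · rw [map_one]
        · rw [map_zero]
      rw [e5] at e4
      linear_combination e4
    have e6 : conj (mFourierCoeff (fun k => (K0 k : ℂ) * G k) x) * mFourierCoeff f x -
      conj z * (conj (mFourierCoeff G x) * mFourierCoeff f x) +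
      conj (mFourierCoeff G x) * mFourierCoeff h x =
      (if x = 0 then 1 else 0) * mFourierCoeff f x := by
      rw [hvf, ← e3]
      ring
    rw [e6]
    split_ifs with hx
    · rw [hx, one_mul]
    · rw [zero_mul]
  have hsum' : HasSum (fun x : Fin d → ℤ => if x = 0 then mFourierCoeff f 0 else 0) _ :=
    (funext hterm : _ = fun x : Fin d → ℤ => if x = 0 then mFourierCoeff f 0 else 0) ▸ hsum
  have huniq := hsum'.unique (hasSum_ite_eq 0 (mFourierCoeff f 0))
  have iA := pair_int hKG hf
  have iB := (pair_int hG hf).const_mul (conj z)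
  have iC := pair_int hG hh
  have iD : Integrable fun k => conj ((K0 k : ℂ) * G k) * f k -
      conj z * (conj (G k) * f k) := iA.sub iB
  rw [← huniq, ← integral_const_mul, ← integral_sub iA iB, ← integral_add iD iC]
  refine integral_congr_ae (Filter.Eventually.of_forall fun k => ?_)
  change conj ((K0 k : ℂ) * G k) * f k - conj z * (conj (G k) * f k) + conj (G k) * h k =
    conj (G k) * (((K0 k : ℂ) - conj z) * f k + h k)
  rw [map_mul, Complex.conj_ofReal]
  ring

end Pool.Agent.Y663.GK
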