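import Pool.Agent.Y663.GK.Stm

/-!
# The value at the origin of an eigenfunction after a perturbation of the kinetic energy
(helper663, helper614)
-/

set_option autoImplicit false

namespace Pool.Agent.Y663.GK

open MeasureTheory Filter UnitAddTorus Pool.Agent.W792.LL Pool.Agent.W792.WA
open scoped Topology ENNReal ComplexConjugate

noncomputable section

section

variable {α : Type*} [MeasurableSpace α] {μ : Measure α}

/-- the Cauchy–Schwarz inequality -/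
lemma pert_cs {F G : α → ℂ} (hF : MemLp F 2 μ) (hG : MemLp G 2 μ) :
    ∫ a, ‖F a‖ * ‖G a‖ ∂μ ≤ √(∫ a, ‖F a‖ ^ 2 ∂μ) * √(∫ a, ‖G a‖ ^ 2 ∂μ) := by
  have h := integral_mul_norm_le_Lp_mul_Lq (μ := μ) (f := F) (g := G) Real.HolderConjugate.two_two
    (by simpa using hF) (by simpa using hG)
  simpa [Real.sqrt_eq_rpow] using h

lemma pert_int {F G : α → ℂ} (hF : MemLp F 2 μ) (hG : MemLp G 2 μ) :
    Integrable (fun a => ‖F a‖ * ‖G a‖) μ := by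
  have := MemLp.integrable_mul hF.norm hG.norm
  exact this

lemma pert_sq {F : α → ℂ} (hF : MemLp F 2 μ) : Integrable (fun a => ‖F a‖ ^ 2) μ := by
  have := pert_int hF hF
  simpa only [sq] using this

/-- the Cauchy–Schwarz inequality on a subset, for the norm of the second function on the whole
space -/
lemma pert_csB {F G : α → ℂ} (hF : MemLp F 2 μ) (hG : MemLp G 2 μ) {s : ℝ} (hs : 0 ≤ s)
    (hG2 : ∫ a, ‖G a‖ ^ 2 ∂μ ≤ s ^ 2) (B : Set α) :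
    ∫ a in B, ‖F a‖ * ‖G a‖ ∂μ ≤ √(∫ a in B, ‖F a‖ ^ 2 ∂μ) * s := by
  refine (pert_cs (hF.restrict B) (hG.restrict B)).trans ?_
  have h1 : ∫ a in B, ‖G a‖ ^ 2 ∂μ ≤ ∫ a, ‖G a‖ ^ 2 ∂μ :=
    setIntegral_le_integral (pert_sq hG) (Eventually.of_forall fun a => by positivity)
  gcongr
  exact Real.sqrt_le_iff.2 ⟨hs, h1.trans hG2⟩

end

/-- Parseval -/
lemma pert_pars (h1 : S_FT) {d : ℕ} {f : UnitAddTorus (Fin d) → ℂ} (hf : MemLp f 2 volume) :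
    HasSum (fun x => ‖mFourierCoeff f x‖ ^ 2) (∫ k, ‖f k‖ ^ 2) := by
  obtain ⟨-, -, -, F4, -⟩ := h1 d
  have h := F4 f f hf hf
  rw [← Complex.hasSum_ofReal, ← integral_complex_ofReal]
  convert h using 1
  · funext x
    rw [Complex.conj_mul']
    norm_cast
  · congr 1
    funext k
    rw [Complex.conj_mul']
    norm_cast

lemma pert_h (h1 : S_FT) {d : ℕ} {f h : UnitAddTorus (Fin d) → ℂ} (hf : MemLp f 2 volume)
    (hh : MemLp h 2 volume) {v : (Fin d → ℤ) → ℝ} {n : ℝ} (hv : ∀ x, |v x| ≤ n)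
    (hhv : ∀ x, mFourierCoeff h x = (v x : ℂ) * mFourierCoeff f x)
    (hf1 : ∫ k, ‖f k‖ ^ 2 ≤ 1) : ∫ k, ‖h k‖ ^ 2 ≤ n ^ 2 := by
  have e1 := pert_pars h1 hf
  have e2 := pert_pars h1 hh
  have e3 := hasSum_le (fun x => ?_) e2 (e1.mul_left (n ^ 2))
  · refine e3.trans ?_
    calc n ^ 2 * ∫ k, ‖f k‖ ^ 2 ≤ n ^ 2 * 1 := by gcongr
      _ = n ^ 2 := mul_one _
  · show ‖mFourierCoeff h x‖ ^ 2 ≤ n ^ 2 * ‖mFourierCoeff f x‖ ^ 2
    rw [hhv, norm_mul, Complex.norm_real, mul_pow]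
    have : ‖v x‖ ≤ n := hv x
    gcongr

theorem pert (h1 : S_FT) (h2 : S_RES) (h3 : S_PAIR) : S_PERT := by
  intro d K0 n v E η δ K f h B hn hv hη hδ hK hEig hf1 hB hKB
  obtain ⟨hf, hh, hhv, hae⟩ := hEig
  obtain ⟨F1, F2, F3, F4, F5⟩ := h1 d
  set z : ℂ := ⟨E, η⟩ with hz
  obtain ⟨-, -, -, hR⟩ := h2 d K0 n v z hv hη
  set g := gv K0 v z with hg
  obtain ⟨hG, -, hGn⟩ := F1 g
  set G := ft g with hGdef
  have hP := h3 d K0 n v z f h hv hη hf hh hhv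
  have hR' : ‖g‖ ≤ 1 / η := by
    rw [le_div_iff₀ hη, mul_comm]
    exact hR
  have hh2 : ∫ k, ‖h k‖ ^ 2 ≤ n ^ 2 := pert_h h1 hf hh hv hhv hf1
  have hf2 : ∫ k, ‖f k‖ ^ 2 ≤ 1 ^ 2 := by rw [one_pow]; exact hf1
  -- the difference
  set D : UnitAddTorus (Fin d) → ℂ := fun k => (K0 k : ℂ) * f k - (E : ℂ) * f k + h k with hD
  have hDm : MemLp D 2 volume := (((F5 K0 f hf).1).sub (hf.const_mul _)).add hh
  have hW : ∀ k, ((K0 k : ℂ) - conj z) * f k + h k = D k + (η * Complex.I) * f k := by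
    intro k
    have hc : conj z = (E : ℂ) - η * Complex.I := by
      apply Complex.ext <;> simp [hz]
    rw [hc, hD]
    ring
  have hDB : ∀ᵐ k, k ∉ B → ‖D k‖ ≤ δ * ‖f k‖ := by
    filter_upwards [hae] with k hk hkB
    have e1 : D k = ((K0 k - K k : ℝ) : ℂ) * f k := by
      rw [hD]
      push_cast
      linear_combination hk
    rw [e1, norm_mul, Complex.norm_real]
    have : ‖K0 k - K k‖ ≤ δ := by
      rw [← norm_neg, neg_sub]
      exact hKB k hkB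
    gcongr
  have hDall : ∀ k, ‖D k‖ ≤ (‖K0‖ + |E|) * ‖f k‖ + ‖h k‖ := by
    intro k
    have e1 : ‖(K0 k : ℂ) * f k‖ ≤ ‖K0‖ * ‖f k‖ := by
      rw [norm_mul, Complex.norm_real]
      gcongr
      exact K0.norm_coe_le_norm k
    have e2 : ‖(E : ℂ) * f k‖ = |E| * ‖f k‖ := by
      rw [norm_mul, Complex.norm_real]
      rfl
    calc ‖D k‖ ≤ ‖(K0 k : ℂ) * f k - (E : ℂ) * f k‖ + ‖h k‖ := norm_add_le _ _
      _ ≤ ‖(K0 k : ℂ) * f k‖ + ‖(E : ℂ) * f k‖ + ‖h k‖ := by gcongr; exact norm_sub_le _ _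
      _ ≤ _ := by rw [e2, add_mul]; gcongr
  -- the first step
  have s1 : ‖mFourierCoeff f 0‖ ≤ (∫ k, ‖G k‖ * ‖D k‖) + η * ∫ k, ‖G k‖ * ‖f k‖ := by
    rw [hP]
    refine (norm_integral_le_integral_norm _).trans ?_
    rw [← integral_const_mul, ← integral_add (pert_int hG hDm) ((pert_int hG hf).const_mul _)]
    refine integral_mono_of_nonneg (Eventually.of_forall fun k => norm_nonneg _)
      ((pert_int hG hDm).add ((pert_int hG hf).const_mul _)) (Eventually.of_forall fun k => ?_)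
    show ‖conj (G k) * (((K0 k : ℂ) - conj z) * f k + h k)‖ ≤
      ‖G k‖ * ‖D k‖ + η * (‖G k‖ * ‖f k‖)
    rw [norm_mul, RCLike.norm_conj, hW]
    have e1 : ‖D k + (η * Complex.I) * f k‖ ≤ ‖D k‖ + η * ‖f k‖ := by
      refine (norm_add_le _ _).trans ?_
      rw [norm_mul, norm_mul, Complex.norm_I, mul_one, Complex.norm_real,
        Real.norm_of_nonneg hη.le]
    calc ‖G k‖ * ‖D k + (η * Complex.I) * f k‖ ≤ ‖G k‖ * (‖D k‖ + η * ‖f k‖) := by gcongr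
      _ = _ := by ring
  -- norm of `G`
  have hGs : √(∫ k, ‖G k‖ ^ 2) = ‖g‖ := by
    rw [hGn, Real.sqrt_sq (norm_nonneg _)]
  have s2 : ∫ k, ‖G k‖ * ‖f k‖ ≤ ‖g‖ := by
    refine (pert_cs hG hf).trans ?_
    rw [hGs]
    have : √(∫ k, ‖f k‖ ^ 2) ≤ 1 := Real.sqrt_le_one.2 hf1
    calc ‖g‖ * √(∫ k, ‖f k‖ ^ 2) ≤ ‖g‖ * 1 := by gcongr
      _ = ‖g‖ := mul_one _
  -- splitting
  have s3 : ∫ k, ‖G k‖ * ‖D k‖ = (∫ k in B, ‖G k‖ * ‖D k‖) + ∫ k in Bᶜ, ‖G k‖ * ‖D k‖ :=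
    (integral_add_compl hB (pert_int hG hDm)).symm
  have s4 : ∫ k in Bᶜ, ‖G k‖ * ‖D k‖ ≤ δ / η := by
    have e1 : ∫ k in Bᶜ, ‖G k‖ * ‖D k‖ ≤ ∫ k in Bᶜ, δ * (‖G k‖ * ‖f k‖) := by
      refine integral_mono_ae (pert_int hG hDm).integrableOn
        ((pert_int hG hf).const_mul _).integrableOn ?_
      refine (ae_restrict_iff' hB.compl).2 ?_
      filter_upwards [hDB] with k hk hkB
      have := hk hkB
      calc ‖G k‖ * ‖D k‖ ≤ ‖G k‖ * (δ * ‖f k‖) := by gcongr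
        _ = _ := by ring
    have e2 : ∫ k in Bᶜ, δ * (‖G k‖ * ‖f k‖) ≤ ∫ k, δ * (‖G k‖ * ‖f k‖) :=
      setIntegral_le_integral ((pert_int hG hf).const_mul _)
        (Eventually.of_forall fun k => by positivity)
    have e3 : ∫ k, δ * (‖G k‖ * ‖f k‖) = δ * ∫ k, ‖G k‖ * ‖f k‖ := integral_const_mul _ _
    rw [e3] at e2
    calc ∫ k in Bᶜ, ‖G k‖ * ‖D k‖ ≤ δ * ∫ k, ‖G k‖ * ‖f k‖ := e1.trans e2
      _ ≤ δ * ‖g‖ := by gcongr
      _ ≤ δ * (1 / η) := by gcongr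
      _ = δ / η := by ring
  have s5 : ∫ k in B, ‖G k‖ * ‖D k‖ ≤ (‖K0‖ + |E| + n) * √(∫ k in B, ‖G k‖ ^ 2) := by
    have i1 : Integrable (fun k => (‖K0‖ + |E|) * (‖G k‖ * ‖f k‖)) (volume.restrict B) :=
      ((pert_int hG hf).const_mul _).integrableOn
    have i2 : Integrable (fun k => ‖G k‖ * ‖h k‖) (volume.restrict B) :=
      (pert_int hG hh).integrableOn
    have e1 : ∫ k in B, ‖G k‖ * ‖D k‖ ≤
        ∫ k in B, ((‖K0‖ + |E|) * (‖G k‖ * ‖f k‖) + ‖G k‖ * ‖h k‖) := by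
      refine integral_mono (pert_int hG hDm).integrableOn (i1.add i2) fun k => ?_
      have := hDall k
      calc ‖G k‖ * ‖D k‖ ≤ ‖G k‖ * ((‖K0‖ + |E|) * ‖f k‖ + ‖h k‖) := by gcongr
        _ = _ := by ring
    rw [integral_add i1 i2, integral_const_mul] at e1
    have e2 := pert_csB hG hf zero_le_one hf2 B
    have e3 := pert_csB hG hh hn hh2 B
    have e4 : (‖K0‖ + |E|) * ∫ k in B, ‖G k‖ * ‖f k‖ ≤
        (‖K0‖ + |E|) * (√(∫ k in B, ‖G k‖ ^ 2) * 1) := by gcongr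
    linarith
  have s6 : η * ∫ k, ‖G k‖ * ‖f k‖ ≤ η * ‖g‖ := by gcongr
  rw [s3] at s1
  linarith

end

end Pool.Agent.Y663.GK
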