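import Pool.Agent.Y663.GK.Stm

/-!
# Project GK: existence, uniqueness and norm of the resolvent vector

Author: helper872.
-/

set_option autoImplicit false

namespace Pool.Agent.Y663.GK

open MeasureTheory Filter UnitAddTorus Pool.Agent.W792.LL Pool.Agent.W792.WA
open scoped Topology ENNReal ComplexConjugate

noncomputable section

/-- square summable functions are elements of `ℓ²` -/
theorem res_mem {Γ : Type} (w : Γ → ℂ) (h : Summable fun y => ‖w y‖ ^ 2) :
    Memℓp (E := fun _ : Γ => ℂ) w 2 := by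
  refine memℓp_gen ?_
  simpa only [ENNReal.toReal_ofNat, Real.rpow_ofNat] using h

theorem res_sum {Γ : Type} (u : l2 Γ) : Summable fun y => ‖u y‖ ^ 2 := by
  have h := (lp.memℓp u).summable (by norm_num)
  simpa only [ENNReal.toReal_ofNat, Real.rpow_ofNat] using h

theorem res_single {d : ℕ} (y : Fin d → ℤ) :
    (lp.single 2 (0 : Fin d → ℤ) (1 : ℂ) : l2 (Fin d → ℤ)) y = if y = 0 then 1 else 0 := by
  by_cases h : y = 0
  · rw [if_pos h, h]
    simp
  · rw [if_neg h]
    simp [h]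

/-- the equation in `ℓ²` and the equation in coordinates -/
theorem res_iff {d : ℕ} (K0 : C(UnitAddTorus (Fin d), ℝ)) (v : (Fin d → ℤ) → ℝ)
    (H : l2 (Fin d → ℤ) →L[ℂ] l2 (Fin d → ℤ))
    (hH : ∀ (u : l2 (Fin d → ℤ)) (x : Fin d → ℤ),
        H u x = (∑' y, hopK K0 (x - y) * u y) + (v x : ℂ) * u x) (z : ℂ) (u : l2 (Fin d → ℤ)) :
    Sol (hopK K0) 1 v z 0 (fun x => u x) ↔ H u - z • u = lp.single 2 (0 : Fin d → ℤ) (1 : ℂ) := by
  have key : ∀ y, (H u - z • u : l2 (Fin d → ℤ)) y =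
      ∑' y', hopK K0 (y - y') * u y' + ((1 * v y : ℝ) : ℂ) * u y - z * u y := by
    intro y
    have h1 : (H u - z • u : l2 (Fin d → ℤ)) y = H u y - z * u y := rfl
    rw [h1, hH, one_mul]
  constructor
  · rintro ⟨-, h2⟩
    refine lp.ext (funext fun y => ?_)
    rw [key, res_single]
    exact h2 y
  · intro h
    refine ⟨res_sum u, fun y => ?_⟩
    have h1 := key y
    rw [h, res_single] at h1
    exact h1.symm

/-- the resolvent vector -/
theorem res (h : S_OPH) : S_RES := by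
  intro d K0 n v z hv hz
  obtain ⟨H, hH, hsym, hz'⟩ := h d K0 n v hv
  obtain ⟨hlow, hsur⟩ := hz' z hz
  have hiff := res_iff K0 v H hH z
  have hinj : ∀ u u' : l2 (Fin d → ℤ), H u - z • u = H u' - z • u' → u = u' := by
    intro u u' he
    have h1 := hlow (u - u')
    have h2 : H (u - u') - z • (u - u') = 0 := by
      rw [map_sub, smul_sub, sub_sub_sub_comm, he, sub_self]
    rw [h2, norm_zero] at h1
    have h3 : ‖u - u'‖ ≤ 0 := by
      by_contra hc
      push Not at hc
      have := mul_pos hz hc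
      linarith
    exact sub_eq_zero.1 (norm_le_zero_iff.1 h3)
  have hex : ∃ g : l2 (Fin d → ℤ), Sol (hopK K0) 1 v z 0 (fun x => g x) := by
    obtain ⟨u, hu⟩ := hsur (lp.single 2 (0 : Fin d → ℤ) (1 : ℂ))
    exact ⟨u, (hiff u).2 hu⟩
  have hg : Sol (hopK K0) 1 v z 0 (fun x => gv K0 v z x) := by
    unfold gv
    rw [dif_pos hex]
    exact Classical.choose_spec hex
  obtain ⟨g, hgd⟩ : ∃ g : l2 (Fin d → ℤ), g = gv K0 v z := ⟨_, rfl⟩
  rw [← hgd] at hg ⊢
  have hge := (hiff g).1 hg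
  refine ⟨hg, ?_, ?_, ?_⟩
  · intro w hw
    obtain ⟨w', hw'⟩ : ∃ w' : l2 (Fin d → ℤ), ∀ x, w' x = w x := ⟨⟨w, res_mem w hw.1⟩, fun _ => rfl⟩
    have hwf : w = fun x => w' x := funext fun x => (hw' x).symm
    rw [hwf] at hw
    have h2 := (hiff w').1 hw
    have h3 := hinj w' g (h2.trans hge.symm)
    rw [hwf, h3]
  · have h1 : inner ℂ g (H g - z • g) = inner ℂ g (lp.single 2 (0 : Fin d → ℤ) (1 : ℂ)) := by
      rw [hge]
    have h2 : inner ℂ g (lp.single 2 (0 : Fin d → ℤ) (1 : ℂ)) = conj (g 0) := by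
      rw [lp.inner_single_right]
      simp
    have h3 : (inner ℂ g (H g)).im = 0 := by
      have h4 := inner_conj_symm (𝕜 := ℂ) g (H g)
      rw [hsym g g] at h4
      exact Complex.conj_eq_iff_im.1 h4
    have h5 : inner ℂ g (z • g) = z * ((‖g‖ ^ 2 : ℝ) : ℂ) := by
      rw [inner_smul_right, inner_self_eq_norm_sq_to_K]
      push_cast
      rfl
    rw [inner_sub_right, h2, h5] at h1
    have h6 := congrArg Complex.im h1
    rw [Complex.sub_im, h3, Complex.conj_im, Complex.im_mul_ofReal] at h6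
    linarith
  · have h1 := hlow g
    rw [hge, lp.norm_single (by norm_num)] at h1
    simpa using h1

end

end Pool.Agent.Y663.GK
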