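import Pool.Agent.Y663.GK.Stm

/-!
# Project GK, part SUP (helper564)

The largest mass in a small window of energies is a continuous function of the potential, and it
tends to zero if the spectral measure is absolutely continuous.
-/

set_option autoImplicit false

namespace Pool.Agent.Y663.GK

open MeasureTheory Filter UnitAddTorus Pool.Agent.W792.LL Pool.Agent.W792.WA
open scoped Topology ENNReal ComplexConjugate

theorem sup_cont (h3 : S_CONT) {d : ℕ} (K0 : C(UnitAddTorus (Fin d), ℝ)) (n R η : ℝ) (hη : 0 < η) :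
    Continuous (fun q : ((Fin d → ℤ) → Set.Icc (-n) n) × Set.Icc (-R) R =>
      (η * ‖gv K0 (fun x => (q.1 x : ℝ)) ⟨(q.2 : ℝ), η⟩‖) ^ 2) := by
  have h := h3 d K0 n η hη
  have h4 : Continuous (fun q : ((Fin d → ℤ) → Set.Icc (-n) n) × Set.Icc (-R) R =>
      (((fun x => (q.1 x : ℝ)), (q.2 : ℝ)) : ((Fin d → ℤ) → ℝ) × ℝ)) := by
    refine Continuous.prodMk ?_ ?_
    · refine continuous_pi fun x => ?_
      exact continuous_subtype_val.comp ((continuous_apply x).comp continuous_fst)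
    · exact continuous_subtype_val.comp continuous_snd
  have h5 := h.comp_continuous h4 (fun q => by
    refine ⟨fun x => ?_, Set.mem_univ _⟩
    exact abs_le.2 (q.1 x).2)
  exact (continuous_const.mul h5.norm).pow 2

theorem sup_bound {μ : Measure ℝ} [IsFiniteMeasure μ] {E η r : ℝ} (hη : 0 < η) (hr : 0 < r) :
    η * ‖∫ s : ℝ, 1 / ((s : ℂ) - ⟨E, η⟩) ∂μ‖ ≤
      μ.real (Metric.ball E r) + η / r * μ.real Set.univ := by
  have hpt : ∀ s : ℝ, ‖1 / ((s : ℂ) - ⟨E, η⟩)‖ ≤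
      (Metric.ball E r).indicator (fun _ => 1 / η) s + 1 / r := by
    intro s
    have h1 : η ≤ ‖(s : ℂ) - ⟨E, η⟩‖ := by
      have h2 := Complex.abs_im_le_norm ((s : ℂ) - ⟨E, η⟩)
      have h3 : ((s : ℂ) - ⟨E, η⟩).im = -η := by simp
      rw [h3, abs_neg, abs_of_pos hη] at h2
      exact h2
    have h4 : |s - E| ≤ ‖(s : ℂ) - ⟨E, η⟩‖ := by
      have h2 := Complex.abs_re_le_norm ((s : ℂ) - ⟨E, η⟩)
      have h3 : ((s : ℂ) - ⟨E, η⟩).re = s - E := by simp
      rwa [h3] at h2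
    rw [norm_div, norm_one]
    by_cases hs : s ∈ Metric.ball E r
    · rw [Set.indicator_of_mem hs]
      have h5 : 1 / ‖(s : ℂ) - ⟨E, η⟩‖ ≤ 1 / η := one_div_le_one_div_of_le hη h1
      have h6 : 0 < 1 / r := by positivity
      linarith
    · rw [Set.indicator_of_notMem hs, zero_add]
      refine one_div_le_one_div_of_le hr ?_
      rw [Metric.mem_ball, Real.dist_eq, not_lt] at hs
      exact hs.trans h4
  have hint : Integrable (fun s => (Metric.ball E r).indicator (fun _ => 1 / η) s + 1 / r) μ :=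
    ((integrable_const (1 / η)).indicator Metric.isOpen_ball.measurableSet).add
      (integrable_const _)
  have h1 : ‖∫ s : ℝ, 1 / ((s : ℂ) - ⟨E, η⟩) ∂μ‖ ≤
      μ.real (Metric.ball E r) * (1 / η) + μ.real Set.univ * (1 / r) := by
    calc ‖∫ s : ℝ, 1 / ((s : ℂ) - ⟨E, η⟩) ∂μ‖ ≤ ∫ s : ℝ, ‖1 / ((s : ℂ) - ⟨E, η⟩)‖ ∂μ :=
          norm_integral_le_integral_norm _
      _ ≤ ∫ s, ((Metric.ball E r).indicator (fun _ => 1 / η) s + 1 / r) ∂μ :=
          integral_mono_of_nonneg (Eventually.of_forall fun s => norm_nonneg _) hint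
            (Eventually.of_forall hpt)
      _ = μ.real (Metric.ball E r) * (1 / η) + μ.real Set.univ * (1 / r) := by
          rw [integral_add ((integrable_const (1 / η)).indicator
            Metric.isOpen_ball.measurableSet) (integrable_const _),
            integral_indicator Metric.isOpen_ball.measurableSet, setIntegral_const,
            integral_const, smul_eq_mul, smul_eq_mul]
  calc η * ‖∫ s : ℝ, 1 / ((s : ℂ) - ⟨E, η⟩) ∂μ‖
      ≤ η * (μ.real (Metric.ball E r) * (1 / η) + μ.real Set.univ * (1 / r)) := by gcongr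
    _ = μ.real (Metric.ball E r) + η / r * μ.real Set.univ := by
        field_simp

theorem sup_small {μ : Measure ℝ} [IsFiniteMeasure μ] {h : ℝ → ℝ} {R : ℝ}
    (hμ : μ.restrict (Set.Ioo (-R - 1) (R + 1)) =
      (volume.restrict (Set.Ioo (-R - 1) (R + 1))).withDensity fun E => ENNReal.ofReal (h E))
    {ε : ℝ} (hε : 0 < ε) :
    ∃ r : ℝ, 0 < r ∧ ∀ E : ℝ, |E| ≤ R → μ.real (Metric.ball E r) ≤ ε := by
  have hfin : ∫⁻ E, ENNReal.ofReal (h E) ∂(volume.restrict (Set.Ioo (-R - 1) (R + 1))) ≠ ∞ := by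
    have h1 : (volume.restrict (Set.Ioo (-R - 1) (R + 1))).withDensity
        (fun E => ENNReal.ofReal (h E)) Set.univ ≠ ∞ := by
      rw [← hμ]
      exact measure_ne_top _ _
    rwa [withDensity_apply _ MeasurableSet.univ, Measure.restrict_univ] at h1
  obtain ⟨δ, hδ, hb⟩ := exists_pos_setLIntegral_lt_of_measure_lt hfin
    (show ENNReal.ofReal ε ≠ 0 by simpa using hε)
  obtain ⟨r, hr0, hr1, hrδ⟩ : ∃ r : ℝ, 0 < r ∧ r ≤ 1 ∧ ENNReal.ofReal (2 * r) < δ := by
    by_cases hδt : δ = ∞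
    · exact ⟨1, one_pos, le_rfl, by rw [hδt]; exact ENNReal.ofReal_lt_top⟩
    · have h1 : 0 < δ.toReal := ENNReal.toReal_pos hδ.ne' hδt
      refine ⟨min 1 (δ.toReal / 4), lt_min one_pos (by positivity), min_le_left _ _, ?_⟩
      rw [ENNReal.ofReal_lt_iff_lt_toReal (by positivity) hδt]
      have h2 := min_le_right 1 (δ.toReal / 4)
      linarith
  refine ⟨r, hr0, fun E hE => ?_⟩
  have hE' := abs_le.1 hE
  have hsub : Metric.ball E r ⊆ Set.Ioo (-R - 1) (R + 1) := by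
    intro s hs
    rw [Metric.mem_ball, Real.dist_eq, abs_lt] at hs
    constructor <;> linarith [hs.1, hs.2, hE'.1, hE'.2]
  have h1 : μ (Metric.ball E r) = ∫⁻ s in Metric.ball E r, ENNReal.ofReal (h s)
      ∂(volume.restrict (Set.Ioo (-R - 1) (R + 1))) := by
    have h2 : μ.restrict (Set.Ioo (-R - 1) (R + 1)) (Metric.ball E r) = μ (Metric.ball E r) := by
      rw [Measure.restrict_apply Metric.isOpen_ball.measurableSet,
        Set.inter_eq_left.2 hsub]
    rw [← h2, hμ, withDensity_apply _ Metric.isOpen_ball.measurableSet]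
  have h2 : volume.restrict (Set.Ioo (-R - 1) (R + 1)) (Metric.ball E r) < δ := by
    rw [Measure.restrict_apply Metric.isOpen_ball.measurableSet, Set.inter_eq_left.2 hsub,
      Real.volume_ball]
    exact hrδ
  have h3 := hb _ h2
  rw [← h1] at h3
  unfold Measure.real
  exact ENNReal.toReal_le_of_le_ofReal hε.le h3.le

theorem sup (h2 : S_RES) (h3 : S_CONT) : S_SUP := by
  intro d K0 n R hn hR
  have hη : ∀ j : ℕ, (0 : ℝ) < 1 / ((j : ℝ) + 1) := fun j => by positivity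
  obtain ⟨F, hF⟩ : ∃ F : ℕ → C(((Fin d → ℤ) → Set.Icc (-n) n) × Set.Icc (-R) R, ℝ),
      ∀ j q, F j q = ((1 / ((j : ℝ) + 1)) *
        ‖gv K0 (fun x => (q.1 x : ℝ)) ⟨(q.2 : ℝ), 1 / ((j : ℝ) + 1)⟩‖) ^ 2 :=
    ⟨fun j => ⟨_, sup_cont h3 K0 n R _ (hη j)⟩, fun j q => rfl⟩
  have hv : ∀ (v : (Fin d → ℤ) → Set.Icc (-n) n) (x : Fin d → ℤ), |(v x : ℝ)| ≤ n :=
    fun v x => abs_le.2 (v x).2
  refine ⟨fun j => ⟨fun v => ‖(F j).curry v‖, (F j).curry.continuous.norm⟩, fun j v => ⟨?_, ?_⟩,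
    fun j v E hE => ?_, fun v hac => ?_⟩
  · show 0 ≤ ‖(F j).curry v‖
    exact norm_nonneg _
  · show ‖(F j).curry v‖ ≤ 1
    refine (ContinuousMap.norm_le _ zero_le_one).2 fun E => ?_
    rw [ContinuousMap.curry_apply, hF, Real.norm_of_nonneg (sq_nonneg _)]
    obtain ⟨-, -, -, h4⟩ := h2 d K0 n (fun x => (v x : ℝ)) ⟨(E : ℝ), 1 / ((j : ℝ) + 1)⟩ (hv v)
      (hη j)
    have h5 : 0 ≤ 1 / ((j : ℝ) + 1) *
        ‖gv K0 (fun x => (v x : ℝ)) ⟨(E : ℝ), 1 / ((j : ℝ) + 1)⟩‖ :=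
      mul_nonneg (hη j).le (norm_nonneg _)
    exact pow_le_one₀ h5 h4
  · have h4 := ((F j).curry v).norm_coe_le_norm ⟨E, abs_le.1 hE⟩
    rw [ContinuousMap.curry_apply, hF, Real.norm_of_nonneg (sq_nonneg _)] at h4
    exact h4
  · obtain ⟨μ, h, hfin, hst, -, -, hμ⟩ := hac 0
    have hz : Tendsto (fun j : ℕ => 1 / ((j : ℝ) + 1)) atTop (𝓝 0) :=
      tendsto_one_div_add_atTop_nhds_zero_nat
    rw [Metric.tendsto_atTop]
    intro ε hε
    obtain ⟨r, hr, hball⟩ := sup_small hμ (show 0 < ε / 4 by positivity)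
    have hz2 : Tendsto (fun j : ℕ => 1 / ((j : ℝ) + 1) / r * μ.real Set.univ) atTop (𝓝 0) := by
      have := (hz.div_const r).mul_const (μ.real Set.univ)
      simpa using this
    obtain ⟨N, hN⟩ := (Metric.tendsto_atTop.1 hz2) (ε / 4) (by positivity)
    refine ⟨N, fun j hj => ?_⟩
    have h4 := hN j hj
    rw [Real.dist_eq, sub_zero] at h4
    have h4' := (le_abs_self _).trans_lt h4
    have h5 : ‖(F j).curry v‖ ≤ ε / 2 := by
      refine (ContinuousMap.norm_le _ (by positivity)).2 fun E => ?_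
      rw [ContinuousMap.curry_apply, hF, Real.norm_of_nonneg (sq_nonneg _)]
      dsimp only
      have hE : |(E : ℝ)| ≤ R := abs_le.2 E.2
      obtain ⟨h6, -, h7, -⟩ := h2 d K0 n (fun x => (v x : ℝ)) ⟨(E : ℝ), 1 / ((j : ℝ) + 1)⟩ (hv v)
        (hη j)
      have h8 := (hst ⟨(E : ℝ), 1 / ((j : ℝ) + 1)⟩ (hη j)).2 _ h6
      have h9 := sup_bound (μ := μ) (E := E) (η := 1 / ((j : ℝ) + 1)) (hη j) hr
      have h10 := hball E hE
      have h11 : (1 / ((j : ℝ) + 1) *
          ‖gv K0 (fun x => (v x : ℝ)) ⟨(E : ℝ), 1 / ((j : ℝ) + 1)⟩‖) ^ 2 =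
          1 / ((j : ℝ) + 1) *
            (gv K0 (fun x => (v x : ℝ)) ⟨(E : ℝ), 1 / ((j : ℝ) + 1)⟩ 0).im := by
        rw [← h7]
        ring
      rw [h11]
      have h12 : (gv K0 (fun x => (v x : ℝ)) ⟨(E : ℝ), 1 / ((j : ℝ) + 1)⟩ 0).im ≤
          ‖∫ s : ℝ, 1 / ((s : ℂ) - ⟨(E : ℝ), 1 / ((j : ℝ) + 1)⟩) ∂μ‖ := by
        rw [← h8]
        exact (le_abs_self _).trans (Complex.abs_im_le_norm _)
      have h13 := mul_le_mul_of_nonneg_left h12 (hη j).le
      linarith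
    rw [Real.dist_eq, sub_zero]
    show |‖(F j).curry v‖| < ε
    rw [abs_of_nonneg (norm_nonneg _)]
    linarith

end Pool.Agent.Y663.GK
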