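import Pool.Agent.Y663.GK.Stm

/-!
# Project GK: translation invariance

Written by helper70 (job GK-TRANSL).
-/

set_option autoImplicit false

namespace Pool.Agent.Y663.GK

open MeasureTheory Filter UnitAddTorus Pool.Agent.W792.LL Pool.Agent.W792.WA
open scoped Topology ENNReal ComplexConjugate

theorem transl_mp (d : ℕ) (ν : Measure ℝ) [IsProbabilityMeasure ν] (x : Fin d → ℤ) :
    MeasurePreserving (fun (v : (Fin d → ℤ) → ℝ) (y : Fin d → ℤ) => v (y + x))
      (Pn ν (Fin d → ℤ)) (Pn ν (Fin d → ℤ)) := by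
  classical
  have hm : Measurable (fun (v : (Fin d → ℤ) → ℝ) (y : Fin d → ℤ) => v (y + x)) :=
    measurable_pi_lambda _ fun y => measurable_pi_apply _
  refine ⟨hm, ?_⟩
  unfold Pn
  apply Measure.eq_infinitePi
  intro s t ht
  rw [Measure.map_apply hm (MeasurableSet.pi s.countable_toSet fun i _ => ht i)]
  have e : (fun (v : (Fin d → ℤ) → ℝ) (y : Fin d → ℤ) => v (y + x)) ⁻¹' (Set.pi s t) =
      Set.pi (s.map (Equiv.addRight x).toEmbedding : Finset (Fin d → ℤ)) (fun y => t (y - x)) := by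
    ext v
    simp only [Set.mem_preimage, Set.mem_pi, Finset.mem_coe, Finset.mem_map,
      Equiv.coe_toEmbedding, Equiv.coe_addRight]
    constructor
    · rintro h _ ⟨y, hy, rfl⟩
      rw [add_sub_cancel_right]
      exact h y hy
    · intro h y hy
      have := h (y + x) ⟨y, hy, rfl⟩
      rwa [add_sub_cancel_right] at this
  rw [e, Measure.infinitePi_pi]
  · rw [Finset.prod_map]
    refine Finset.prod_congr rfl (fun y _ => ?_)
    have h0 : y + x - x = y := add_sub_cancel_right y x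
    change ν (t (y + x - x)) = _
    rw [h0]
  · intro y hy
    rw [Finset.mem_map] at hy
    obtain ⟨y', hy', rfl⟩ := hy
    exact ht _

theorem transl_coeff {d : ℕ} (f : UnitAddTorus (Fin d) → ℂ) (m n : Fin d → ℤ) :
    mFourierCoeff (fun k => mFourier m k * f k) n = mFourierCoeff f (n - m) := by
  unfold mFourierCoeff
  congr 1
  funext t
  rw [smul_eq_mul, smul_eq_mul, ← mul_assoc, ← mFourier_add]
  congr 2
  rw [neg_sub, sub_eq_add_neg, add_comm]

theorem transl_norm {d : ℕ} (m : Fin d → ℤ) (k : UnitAddTorus (Fin d)) :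
    ‖mFourier m k‖ = 1 := by
  have h : conj (mFourier m k) * mFourier m k = 1 := by
    rw [← mFourier_neg, ← mFourier_add, neg_add_cancel, mFourier_zero]
    rfl
  have h1 : ‖mFourier m k‖ * ‖mFourier m k‖ = 1 := by
    have h2 := congrArg norm h
    rwa [norm_mul, RCLike.norm_conj, norm_one] at h2
  nlinarith [norm_nonneg (mFourier m k)]

theorem transl_memLp {d : ℕ} {f : UnitAddTorus (Fin d) → ℂ} (hf : MemLp f 2 volume)
    (m : Fin d → ℤ) : MemLp (fun k => mFourier m k * f k) 2 volume := by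
  refine hf.of_le ((mFourier m).continuous.aestronglyMeasurable.mul hf.1) ?_
  refine Eventually.of_forall fun k => ?_
  rw [norm_mul, transl_norm, one_mul]

theorem transl_eig {d : ℕ} {K : UnitAddTorus (Fin d) → ℝ} {v : (Fin d → ℤ) → ℝ} {E : ℝ}
    {f h : UnitAddTorus (Fin d) → ℂ} (H : Eig K v E f h) (a : Fin d → ℤ) :
    Eig K (fun y => v (y + a)) E (fun k => mFourier (-a) k * f k)
      (fun k => mFourier (-a) k * h k) := by
  obtain ⟨h1, h2, h3, h4⟩ := H
  refine ⟨transl_memLp h1 _, transl_memLp h2 _, ?_, ?_⟩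
  · intro x
    rw [transl_coeff, transl_coeff, sub_neg_eq_add, h3]
  · filter_upwards [h4] with k hk
    calc (K k : ℂ) * (mFourier (-a) k * f k) + mFourier (-a) k * h k
        = mFourier (-a) k * ((K k : ℂ) * f k + h k) := by ring
      _ = mFourier (-a) k * ((E : ℂ) * f k) := by rw [hk]
      _ = (E : ℂ) * (mFourier (-a) k * f k) := by ring

theorem transl_zero (h : S_FT) {d : ℕ} {f : UnitAddTorus (Fin d) → ℂ} (hf : MemLp f 2 volume)
    (h0 : ∀ x, mFourierCoeff f x = 0) : f =ᵐ[volume] 0 := by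
  obtain ⟨hA, -, hC, -⟩ := h d
  obtain ⟨u, hu, hfu⟩ := hC f hf
  obtain ⟨h1, -, h3⟩ := hA u
  have hu0 : u = 0 := by
    ext x
    rw [← hu, h0]
    rfl
  have h4 : ∫ k, ‖ft u k‖ ^ 2 = 0 := by
    rw [h3, hu0, norm_zero]
    norm_num
  have h5 : Integrable (fun k => ‖ft u k‖ ^ 2) volume :=
    (memLp_two_iff_integrable_sq_norm h1.1).1 h1
  have h6 := (integral_eq_zero_iff_of_nonneg (fun k => sq_nonneg ‖ft u k‖) h5).1 h4
  filter_upwards [hfu, h6] with k hk hk'
  rw [hk]
  have h7 : ‖ft u k‖ ^ 2 = 0 := hk'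
  exact norm_eq_zero.1 (pow_eq_zero_iff (two_ne_zero)|>.1 h7)

theorem transl (h : S_FT) : S_TRANSL := by
  intro d K ν _ hK
  have h1 : ∀ᵐ v ∂(Pn ν (Fin d → ℤ)), ∀ (a : Fin d → ℤ) (E : ℝ) (f h : UnitAddTorus (Fin d) → ℂ),
      Eig K (fun y => v (y + a)) E f h → mFourierCoeff f 0 = 0 := by
    rw [ae_all_iff]
    intro a
    exact (transl_mp d ν a).quasiMeasurePreserving.ae hK
  filter_upwards [h1] with v hv E f g hE
  refine transl_zero h hE.1 fun x => ?_
  have h2 := hv x E _ _ (transl_eig hE x)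
  rwa [transl_coeff, sub_neg_eq_add, zero_add] at h2

end Pool.Agent.Y663.GK
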