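import Pool.Agent.Y663.GK.Stm

/-!
# Project GK, part TRF: laws carried by an interval and their infinite products

Proof by helper960.
-/

set_option autoImplicit false

namespace Pool.Agent.Y663.GK

open MeasureTheory Filter UnitAddTorus Pool.Agent.W792.LL Pool.Agent.W792.WA
open scoped Topology ENNReal ComplexConjugate

/-- The restriction of a law to an interval which carries it. -/
theorem trf_comap (n : ℝ) (ν : Measure ℝ) (h : ν (Set.Icc (-n) n)ᶜ = 0) :
    (ν.comap (Subtype.val : Set.Icc (-n) n → ℝ)).map Subtype.val = ν := by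
  rw [(MeasurableEmbedding.subtype_coe measurableSet_Icc).map_comap, Subtype.range_coe]
  exact Measure.restrict_eq_self_of_ae_mem (mem_ae_iff.2 h)

theorem trf : S_TRF := by
  intro Γ _ n ν _ h
  have h1 := trf_comap n ν h
  have hp : IsProbabilityMeasure (ν.comap (Subtype.val : Set.Icc (-n) n → ℝ)) := by
    constructor
    have h2 : (ν.comap (Subtype.val : Set.Icc (-n) n → ℝ)).map Subtype.val Set.univ = 1 := by
      rw [h1]
      exact measure_univ
    rwa [Measure.map_apply measurable_subtype_coe MeasurableSet.univ, Set.preimage_univ] at h2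
  refine ⟨⟨ν.comap (Subtype.val : Set.Icc (-n) n → ℝ), hp⟩, h1, ?_⟩
  have h3 := Measure.infinitePi_map_pi (μ := fun _ : Γ => ν.comap (Subtype.val : Set.Icc (-n) n → ℝ))
    (f := fun _ : Γ => (Subtype.val : Set.Icc (-n) n → ℝ)) (fun _ => measurable_subtype_coe)
  simp only [h1] at h3
  exact h3.symm

end Pool.Agent.Y663.GK
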