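import Pool.Agent.Y663.GK.Stm

/-!
# GK-UI: uniform integrability of a compact family of resolvent vectors (author: helper813)
-/

set_option autoImplicit false

namespace Pool.Agent.Y663.GK

open MeasureTheory Filter UnitAddTorus Pool.Agent.W792.LL Pool.Agent.W792.WA
open scoped Topology ENNReal ComplexConjugate

noncomputable section

/-- absolute continuity of the integral -/
theorem ui_abs {d : ℕ} (f : UnitAddTorus (Fin d) → ℂ) (hf : MemLp f 2 volume) {ε : ℝ}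
    (hε : 0 < ε) : ∃ τ : ℝ, 0 < τ ∧ ∀ B : Set (UnitAddTorus (Fin d)),
      volume B ≤ ENNReal.ofReal τ → ∫ k in B, ‖f k‖ ^ 2 ≤ ε := by
  have hint : Integrable (fun k => ‖f k‖ ^ 2) volume := by
    have : MemLp f ((2 : ℕ) : ℝ≥0∞) volume := by simpa using hf
    exact this.integrable_norm_pow (by norm_num)
  have h1 : ∫⁻ k, ENNReal.ofReal (‖f k‖ ^ 2) ≠ ∞ := by
    rw [← ofReal_integral_eq_lintegral_ofReal hint (ae_of_all _ fun _ => by positivity)]
    exact ENNReal.ofReal_ne_top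
  obtain ⟨δ, hδ, h2⟩ := exists_pos_setLIntegral_lt_of_measure_lt h1 (ε := ENNReal.ofReal ε)
    (ENNReal.ofReal_pos.2 hε).ne'
  obtain ⟨τ, hτ0, hτ⟩ := ENNReal.lt_iff_exists_nnreal_btwn.1 hδ
  refine ⟨τ, by exact_mod_cast hτ0, fun B hB => ?_⟩
  have h3 := h2 B (lt_of_le_of_lt (by simpa using hB) hτ)
  rw [integral_eq_lintegral_of_nonneg_ae (ae_of_all _ fun _ => by positivity) hint.1.restrict]
  exact ENNReal.toReal_le_of_le_ofReal hε.le h3.le

theorem ui_min {α : Type} (t : Set α) (ht : t.Finite) (τ : α → ℝ) (h : ∀ y, 0 < τ y) :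
    ∃ τ0 : ℝ, 0 < τ0 ∧ ∀ y ∈ t, τ0 ≤ τ y := by
  induction t, ht using Set.Finite.induction_on with
  | empty => exact ⟨1, one_pos, fun y hy => absurd hy (Set.notMem_empty y)⟩
  | @insert a s _ _ ih =>
    obtain ⟨τ0, h0, h1⟩ := ih
    refine ⟨min τ0 (τ a), lt_min h0 (h a), ?_⟩
    rintro y (rfl | hy)
    · exact min_le_right _ _
    · exact (min_le_left _ _).trans (h1 y hy)

/-- **UI** -/
theorem ui (h1 : S_FT) (h2 : S_CONT) : S_UI := by
  intro d K0 n R η ε hη hε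
  obtain ⟨f1, f2, -, -, -⟩ := h1 d
  set r : ℝ := Real.sqrt (ε / 4) with hr
  have hr0 : 0 < r := Real.sqrt_pos.2 (by positivity)
  have hr2 : r ^ 2 = ε / 4 := Real.sq_sqrt (by positivity)
  set Q : Set (((Fin d → ℤ) → ℝ) × ℝ) :=
    (Set.univ.pi fun _ => Set.Icc (-n) n) ×ˢ Set.Icc (-R) R with hQ
  have hQc : IsCompact Q := (isCompact_univ_pi fun _ => isCompact_Icc).prod isCompact_Icc
  have hcont : ContinuousOn (fun q : ((Fin d → ℤ) → ℝ) × ℝ => gv K0 q.1 ⟨q.2, η⟩) Q :=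
    (h2 d K0 n η hη).mono (fun q hq => ⟨fun x => abs_le.2 (hq.1 x trivial), trivial⟩)
  have him := hQc.image_of_continuousOn hcont
  obtain ⟨t, ht, hcov⟩ := Metric.totallyBounded_iff.1 him.totallyBounded r hr0
  have hy : ∀ y : l2 (Fin d → ℤ), ∃ τ : ℝ, 0 < τ ∧ ∀ B : Set (UnitAddTorus (Fin d)),
      volume B ≤ ENNReal.ofReal τ → ∫ k in B, ‖ft y k‖ ^ 2 ≤ ε / 4 := fun y =>
    ui_abs (ft y) (f1 y).1 (by positivity)
  choose τ hτ0 hτ using hy
  obtain ⟨τ0, h0, h3⟩ := ui_min t ht τ hτ0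
  refine ⟨τ0, h0, fun v E B hv hE _ hB => ?_⟩
  set g := gv K0 v ⟨E, η⟩ with hg
  have hgm : g ∈ (fun q : ((Fin d → ℤ) → ℝ) × ℝ => gv K0 q.1 ⟨q.2, η⟩) '' Q :=
    ⟨(v, E), ⟨fun x _ => abs_le.1 (hv x), abs_le.1 hE⟩, rfl⟩
  obtain ⟨y, hyt, hgy⟩ : ∃ y ∈ t, dist g y < r := by
    have := hcov hgm
    simpa using this
  have hsq : ∀ u : l2 (Fin d → ℤ), Integrable (fun k => ‖ft u k‖ ^ 2) volume := by
    intro u
    have : MemLp (ft u) ((2 : ℕ) : ℝ≥0∞) volume := by simpa using (f1 u).1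
    exact this.integrable_norm_pow (by norm_num)
  have h4 : ∫ k in B, ‖ft y k‖ ^ 2 ≤ ε / 4 :=
    hτ y B (hB.trans (ENNReal.ofReal_le_ofReal (h3 y hyt)))
  have h5 : ∫ k in B, ‖ft (g - y) k‖ ^ 2 ≤ ε / 4 := by
    calc ∫ k in B, ‖ft (g - y) k‖ ^ 2 ≤ ∫ k, ‖ft (g - y) k‖ ^ 2 :=
          setIntegral_le_integral (hsq _) (ae_of_all _ fun _ => by positivity)
      _ = ‖g - y‖ ^ 2 := (f1 (g - y)).2.2
      _ ≤ r ^ 2 := by
          rw [← dist_eq_norm]
          exact pow_le_pow_left₀ dist_nonneg hgy.le 2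
      _ = ε / 4 := hr2
  have h6 : ∫ k in B, ‖ft g k‖ ^ 2 ≤
      ∫ k in B, (2 * ‖ft y k‖ ^ 2 + 2 * ‖ft (g - y) k‖ ^ 2) := by
    refine integral_mono_ae (hsq g).integrableOn
      (((hsq y).const_mul 2).add ((hsq (g - y)).const_mul 2)).integrableOn ?_
    refine ae_restrict_of_ae ?_
    filter_upwards [f2 g y] with k hk
    rw [hk]
    have e1 : ‖ft g k‖ ≤ ‖ft y k‖ + ‖ft g k - ft y k‖ := by
      have := norm_add_le (ft y k) (ft g k - ft y k)
      rwa [add_sub_cancel] at this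
    have e2 := norm_nonneg (ft g k)
    nlinarith [sq_nonneg (‖ft y k‖ - ‖ft g k - ft y k‖), norm_nonneg (ft y k),
      norm_nonneg (ft g k - ft y k)]
  have h7 : ∫ k in B, (2 * ‖ft y k‖ ^ 2 + 2 * ‖ft (g - y) k‖ ^ 2) =
      2 * (∫ k in B, ‖ft y k‖ ^ 2) + 2 * (∫ k in B, ‖ft (g - y) k‖ ^ 2) := by
    rw [integral_add ((hsq y).const_mul 2).integrableOn ((hsq (g - y)).const_mul 2).integrableOn,
      integral_const_mul, integral_const_mul]
  rw [h7] at h6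
  linarith

end

end Pool.Agent.Y663.GK
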