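import Pool.Agent.Y663.GK.Stm

/-!
# Project GK: uniformity in the law of convergence in probability
-/

set_option autoImplicit false

namespace Pool.Agent.Y663.GK

open MeasureTheory Filter UnitAddTorus Pool.Agent.W792.LL Pool.Agent.W792.WA
open scoped Topology ENNReal ComplexConjugate

/-- The inclusion of the product of the intervals is a measurable embedding. -/
theorem uni_emb (Γ : Type) [Countable Γ] (n : ℝ) :
    MeasurableEmbedding fun (v : Γ → Set.Icc (-n) n) (x : Γ) => (v x : ℝ) := by
  refine (Continuous.isClosedEmbedding (by fun_prop) fun v w h => ?_).measurableEmbedding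
  funext x
  exact Subtype.ext (congrFun h x)

theorem uni (h1 : S_CPT) (h2 : S_TRF) : S_UNI := by
  intro Γ _ n κ ε Φ hε hΦ hae
  obtain ⟨N, hN⟩ := h1 Γ n κ (ε ^ 2) Φ (by positivity) hΦ (by
    intro ν hκ
    have : IsProbabilityMeasure ((ν : Measure (Set.Icc (-n) n)).map Subtype.val) :=
      Measure.isProbabilityMeasure_map measurable_subtype_coe.aemeasurable
    have hc : ((ν : Measure (Set.Icc (-n) n)).map Subtype.val) (Set.Icc (-n) n)ᶜ = 0 := by
      rw [Measure.map_apply measurable_subtype_coe measurableSet_Icc.compl]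
      have : (Subtype.val : Set.Icc (-n) n → ℝ) ⁻¹' (Set.Icc (-n) n)ᶜ = ∅ := by
        ext x
        simp only [Set.mem_preimage, Set.mem_compl_iff, Set.mem_empty_iff_false, iff_false, not_not]
        exact x.2
      rw [this, measure_empty]
    have h3 := hae _ hc hκ
    have hP : Pn ((ν : Measure (Set.Icc (-n) n)).map Subtype.val) Γ =
        (Measure.infinitePi fun _ : Γ => (ν : Measure (Set.Icc (-n) n))).map
          fun (v : Γ → Set.Icc (-n) n) (x : Γ) => (v x : ℝ) := by
      unfold Pn
      exact (Measure.infinitePi_map_pi (fun _ : Γ => (ν : Measure (Set.Icc (-n) n)))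
        (f := fun _ => Subtype.val) fun _ => measurable_subtype_coe).symm
    rw [hP] at h3
    filter_upwards [ae_of_ae_map (uni_emb Γ n).measurable.aemeasurable h3] with v hv
    exact hv v fun x => rfl)
  refine ⟨N, fun ν _ hc hκ => ?_⟩
  obtain ⟨ν', hν', hP⟩ := h2 Γ n ν hc
  obtain ⟨j, hj, hint⟩ := hN ν' (by rw [hν']; exact hκ)
  refine ⟨j, hj, ?_⟩
  rw [hP, (uni_emb Γ n).map_apply]
  have hpre : (fun (v : Γ → Set.Icc (-n) n) (x : Γ) => (v x : ℝ)) ⁻¹'
      {v | ∃ v' : Γ → Set.Icc (-n) n, (∀ x, (v' x : ℝ) = v x) ∧ ε < Φ j v'} ⊆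
        {v | ε ≤ Φ j v} := by
    rintro v ⟨v', hv', h⟩
    have : v' = v := funext fun x => Subtype.ext (hv' x)
    rw [this] at h
    exact h.le
  set μ := Measure.infinitePi fun _ : Γ => (ν' : Measure (Set.Icc (-n) n)) with hμ
  have hI : Integrable (fun v => Φ j v) μ := by
    refine Integrable.of_bound (Φ j).continuous.measurable.aestronglyMeasurable 1
      (Eventually.of_forall fun v => ?_)
    rw [Real.norm_eq_abs, abs_of_nonneg (hΦ j v).1]
    exact (hΦ j v).2
  have h3 := mul_meas_ge_le_integral_of_nonneg (Eventually.of_forall fun v => (hΦ j v).1) hI ε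
  have h4 : μ.real {v | ε ≤ Φ j v} ≤ ε := by
    have h5 : ε * μ.real {v | ε ≤ Φ j v} ≤ ε * ε := by
      calc _ ≤ _ := h3
        _ ≤ ε ^ 2 := hint
        _ = ε * ε := by ring
    exact le_of_mul_le_mul_left h5 hε
  calc μ _ ≤ μ {v | ε ≤ Φ j v} := measure_mono hpre
    _ = ENNReal.ofReal (μ.real {v | ε ≤ Φ j v}) := by
        rw [ofReal_measureReal]
    _ ≤ ENNReal.ofReal ε := ENNReal.ofReal_le_ofReal h4

end Pool.Agent.Y663.GK
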