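import Pool.Agent.Y663.GK.Stm

/-!
The variance of the Cayley transform is positive for laws that are not Dirac masses.
-/

set_option autoImplicit false

namespace Pool.Agent.Y663.GK

open MeasureTheory Filter Pool.Agent.W792.LL Pool.Agent.W792.WA
open scoped Topology

theorem vr_ne (x : ℝ) : (x : ℂ) - Complex.I ≠ 0 := by
  intro h0
  have := congrArg Complex.im h0
  simp at this

theorem vr_nrm (x : ℝ) : ‖cay x‖ = 1 := by
  have h : ‖(x : ℂ) + Complex.I‖ = ‖(x : ℂ) - Complex.I‖ := by
    rw [← Complex.norm_conj ((x : ℂ) - Complex.I)]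
    congr 1
    simp
  unfold cay
  rw [norm_div, h, div_self]
  exact norm_ne_zero_iff.2 (vr_ne x)

theorem vr_inj {x a : ℝ} (h : cay x = cay a) : x = a := by
  unfold cay at h
  rw [div_eq_div_iff (vr_ne x) (vr_ne a)] at h
  have h4 : 2 * Complex.I * ((a : ℂ) - x) = 0 := by linear_combination h
  have h5 : (a : ℂ) - x = 0 := by
    rcases mul_eq_zero.1 h4 with h6 | h6
    · exfalso
      have := congrArg Complex.im h6
      simp at this
    · exact h6
  have h6 : (a : ℂ) = x := by linear_combination h5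
  exact_mod_cast h6.symm

/-- Nondegenerate laws. -/
theorem vrpos : S_VR := by
  intro ν _ h
  have hb : ∀ᵐ x ∂ν, ‖cay x‖ ≤ 1 := ae_of_all _ fun x => (vr_nrm x).le
  rcases ae_eq_const_or_norm_average_lt_of_norm_le_const hb with h1 | h1
  · exfalso
    obtain ⟨a, ha⟩ := h1.exists
    have h2 : ∀ᵐ x ∂ν, x = a := by
      filter_upwards [h1] with x hx
      exact vr_inj (hx.trans ha.symm)
    have h3 : ν {a} = 1 := by
      have h4 : ν {a}ᶜ = 0 := h2
      have h5 := prob_compl_eq_zero_iff (μ := ν) (measurableSet_singleton a)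
      exact h5.1 h4
    exact absurd h3 (h a).ne
  · rw [average_eq_integral] at h1
    unfold vr
    have h2 : ‖∫ x, cay x ∂ν‖ ^ 2 < 1 := by
      have := norm_nonneg (∫ x, cay x ∂ν)
      nlinarith
    linarith

end Pool.Agent.Y663.GK
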