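import Pool.Agent.Y663.GK.Stm

/-!
Infinite product measures depend continuously on the law (`S_WEAK`); written by helper510 for
helper663 (project GK).
-/

set_option autoImplicit false

namespace Pool.Agent.Y663.GK

open MeasureTheory Filter Topology Metric Set

/-- the product measure as a probability measure -/
noncomputable def weak_pi (Γ X : Type) [MeasurableSpace X] (ν : ProbabilityMeasure X) :
    ProbabilityMeasure (Γ → X) :=
  ⟨Measure.infinitePi fun _ : Γ => (ν : Measure X), inferInstance⟩

theorem weak_cont (Γ X : Type) [Countable Γ] [PseudoMetricSpace X] [SecondCountableTopology X]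
    [MeasurableSpace X] [BorelSpace X] (μ : ProbabilityMeasure X) :
    Tendsto (weak_pi Γ X) (𝓝 μ) (𝓝 (weak_pi Γ X μ)) := by
  classical
  let S : Set (Set (Γ → X)) := {t | ∃ s : Γ → Set X, t = univ.pi s ∧
    (∀ i, MeasurableSet (s i)) ∧ (∀ i, (μ : Measure X) (frontier (s i)) = 0) ∧
    ∃ I : Finset Γ, ∀ i, i ∉ I → s i = univ}
  have hS : IsPiSystem S := by
    rintro - ⟨s, rfl, smeas, hs, I, hI⟩ - ⟨s', rfl, s'meas, hs', I', hI'⟩ -
    refine ⟨fun i => s i ∩ s' i, pi_inter_distrib.symm, fun i => (smeas i).inter (s'meas i),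
      fun i => null_frontier_inter (hs i) (hs' i), I ∪ I', fun i hi => ?_⟩
    rw [Finset.mem_union, not_or] at hi
    show s i ∩ s' i = univ
    rw [hI i hi.1, hI' i hi.2, univ_inter]
  have hpi : ∀ (s : Γ → Set X) (I : Finset Γ), (∀ i, i ∉ I → s i = univ) →
      univ.pi s = (I : Set Γ).pi s := by
    intro s I hI
    ext x
    simp only [Set.mem_pi, mem_univ, true_implies, Finset.mem_coe]
    constructor
    · intro h i _
      exact h i
    · intro h i
      by_cases hi : i ∈ I
      · exact h i hi
      · rw [hI i hi]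
        exact mem_univ _
  refine hS.tendsto_probabilityMeasure_of_tendsto_of_mem ?_ ?_ ?_
  · rintro - ⟨s, rfl, smeas, hs, -⟩
    exact MeasurableSet.univ_pi smeas
  · intro u hu x xu
    obtain ⟨I, w, hw, hIw⟩ := isOpen_pi_iff.1 hu x xu
    have A : ∀ i, ∃ r : ℝ, 0 < r ∧ (i ∈ I → ball (x i) r ⊆ w i) ∧
        (μ : Measure X) (frontier (ball (x i) r)) = 0 := by
      intro i
      by_cases hi : i ∈ I
      · obtain ⟨ε, ε0, hε⟩ := Metric.isOpen_iff.1 (hw i hi).1 (x i) (hw i hi).2
        obtain ⟨r, hr, hr'⟩ := exists_null_frontier_thickening (μ : Measure X) {x i} ε0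
        rw [thickening_singleton] at hr'
        exact ⟨r, hr.1, fun _ => (ball_subset_ball hr.2.le).trans hε, hr'⟩
      · obtain ⟨r, hr, hr'⟩ := exists_null_frontier_thickening (μ : Measure X) {x i} one_pos
        rw [thickening_singleton] at hr'
        exact ⟨r, hr.1, fun h => absurd h hi, hr'⟩
    choose r hr0 hrw hrf using A
    refine ⟨univ.pi fun i => if i ∈ I then ball (x i) (r i) else univ,
      ⟨_, rfl, fun i => ?_, fun i => ?_, I, fun i hi => if_neg hi⟩, ?_, ?_⟩
    · split_ifs
      · exact measurableSet_ball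
      · exact MeasurableSet.univ
    · split_ifs
      · exact hrf i
      · rw [frontier_univ]
        exact measure_empty
    · rw [hpi _ I fun i hi => if_neg hi]
      refine set_pi_mem_nhds I.finite_toSet fun i hi => ?_
      rw [if_pos (Finset.mem_coe.1 hi)]
      exact ball_mem_nhds _ (hr0 i)
    · rw [hpi _ I fun i hi => if_neg hi]
      refine Subset.trans ?_ hIw
      intro y hy i hi
      have h1 : y i ∈ (if i ∈ I then ball (x i) (r i) else univ) := hy i hi
      rw [if_pos (Finset.mem_coe.1 hi)] at h1
      exact hrw i hi h1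
  · rintro - ⟨s, rfl, smeas, hs, I, hI⟩
    have e : ∀ ν : ProbabilityMeasure X, weak_pi Γ X ν (univ.pi s) = ∏ i ∈ I, ν (s i) := by
      intro ν
      have h1 : (Measure.infinitePi fun _ : Γ => (ν : Measure X)) (univ.pi s) =
          ∏ i ∈ I, (ν : Measure X) (s i) := by
        rw [hpi s I hI]
        exact Measure.infinitePi_pi _ fun i _ => smeas i
      show ((Measure.infinitePi fun _ : Γ => (ν : Measure X)) (univ.pi s)).toNNReal = _
      rw [h1, ENNReal.toNNReal_prod]
      rfl
    simp only [e]
    refine tendsto_finsetProd _ fun i _ => ?_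
    refine ProbabilityMeasure.tendsto_measure_of_null_frontier_of_tendsto tendsto_id ?_
    have h2 := hs i
    show ((μ : Measure X) (frontier (s i))).toNNReal = 0
    rw [h2]
    rfl

theorem weak : S_WEAK := by
  intro Γ _ n Φ
  rw [continuous_iff_continuousAt]
  intro μ
  have h := weak_cont Γ (Set.Icc (-n) n) μ
  rw [ProbabilityMeasure.tendsto_iff_forall_integral_tendsto] at h
  exact h (BoundedContinuousFunction.mkOfCompact Φ)

end Pool.Agent.Y663.GK
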