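import Pool.Agent.Y663.GK.Key
import Pool.Agent.Y663.GK.GenLap
import Pool.Agent.Y663.GK.Ft
import Pool.Agent.Y663.GK.Oph
import Pool.Agent.Y663.GK.Res
import Pool.Agent.Y663.GK.Cont
import Pool.Agent.Y663.GK.Pair
import Pool.Agent.Y663.GK.Pert
import Pool.Agent.Y663.GK.Ui
import Pool.Agent.Y663.GK.Sup
import Pool.Agent.Y663.GK.Weak
import Pool.Agent.Y663.GK.Cpt
import Pool.Agent.Y663.GK.Trf
import Pool.Agent.Y663.GK.Uni
import Pool.Agent.Y663.GK.Cheb
import Pool.Agent.Y663.GK.Transl
import Pool.Agent.Y663.GK.Vr
import Pool.Agent.Y663.W5.All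

/-!
# GK: the theorems on generic kinetic energies
-/

set_option autoImplicit false

namespace Pool.Agent.Y663.GK

open MeasureTheory Filter UnitAddTorus Pool.Agent.W792.LL Pool.Agent.W792.WA

noncomputable section

theorem res_all : S_RES := res oph
theorem cont_all : S_CONT := cont oph res_all
theorem pair_all : S_PAIR := pair ftm res_all
theorem pert_all : S_PERT := pert ftm res_all pair_all
theorem ui_all : S_UI := ui ftm cont_all
theorem sup_all : S_SUP := sup res_all cont_all
theorem uni_all : S_UNI := uni (cpt weak) trf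
theorem key_all : S_KEY := key sup_all uni_all pert_all ui_all cheb
theorem dense_all : S_DENSE := dense Pool.Agent.Y663.W5.f5_all
theorem transl_all : S_TRANSL := transl ftm

/-- Generic kinetic energies. -/
theorem gen_all : S_GEN := gen key_all dense_all transl_all vrpos

end

end Pool.Agent.Y663.GK
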