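import Pool.Agent.Y663.GK.All

/-!
# GK: final form
-/

set_option autoImplicit false

namespace Pool.Agent.Y663.GK

open MeasureTheory Filter UnitAddTorus Pool.Agent.W792.LL Pool.Agent.W792.WA
open scoped Topology ENNReal

noncomputable section

variable {d : ℕ}

/-- No eigenvalues, position space form. -/
def NoEv (K : UnitAddTorus (Fin d) → ℝ) (q : (Fin d → ℤ) → ℝ) : Prop :=
  ∀ (E : ℝ) (u : (Fin d → ℤ) → ℂ) (f g : UnitAddTorus (Fin d) → ℂ),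
    (MemLp f 2 volume ∧ ∀ x, mFourierCoeff f x = u x) →
    (MemLp g 2 volume ∧ ∀ x, mFourierCoeff g x = (q x : ℂ) * u x) →
    (∀ᵐ k, (K k : ℂ) * f k + g k = (E : ℂ) * f k) → u = 0

theorem noEv_of {K : UnitAddTorus (Fin d) → ℝ} {q : (Fin d → ℤ) → ℝ}
    (h : ∀ (E : ℝ) (f h : UnitAddTorus (Fin d) → ℂ), Eig K q E f h → f =ᵐ[volume] 0) :
    NoEv K q := by
  rintro E u f g ⟨hf, hfu⟩ ⟨hg, hgu⟩ hE
  have h0 := h E f g ⟨hf, hg, fun x => by rw [hgu, hfu], hE⟩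
  have h1 : f =ᵐ[ft_mu d] 0 := by rw [← ft_vol]; exact h0
  funext x
  rw [← hfu x, ft_congr h1 x]
  simp [mFourierCoeff]

theorem scale_ae {P : ((Fin d → ℤ) → ℝ) → Prop} {ν : Measure ℝ} [IsProbabilityMeasure ν]
    {lam : ℝ} (h : ∀ᵐ v ∂(Measure.infinitePi fun _ : Fin d → ℤ => ν.map fun s => lam * s), P v) :
    ∀ᵐ ω ∂(Measure.infinitePi fun _ : Fin d → ℤ => ν), P (fun x => lam * ω x) := by
  have h1 := Measure.infinitePi_map_pi (μ := fun _ : Fin d → ℤ => ν)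
    (f := fun _ : Fin d → ℤ => fun s : ℝ => lam * s) (fun _ => by fun_prop)
  rw [← h1] at h
  have hm : Measurable fun (ω : (Fin d → ℤ) → ℝ) (x : Fin d → ℤ) => lam * ω x :=
    measurable_pi_lambda _ fun x => by
      have h0 : Measurable fun c : (Fin d → ℤ) → ℝ => c x := measurable_pi_apply x
      exact h0.const_mul lam
  exact ae_of_ae_map hm.aemeasurable h

theorem fin_law {Q : ((Fin d → ℤ) → ℝ) → Prop}
    (h : ∀ (ν : Measure ℝ) [IsProbabilityMeasure ν],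
        (∃ R : ℝ, ν (Set.Icc (-R) R)ᶜ = 0) → (∀ a : ℝ, ν {a} < 1) →
        ∀ᵐ v ∂(Pn ν (Fin d → ℤ)), Q v)
    (ν : Measure ℝ) [IsProbabilityMeasure ν] (h1 : ∃ R : ℝ, ∀ᵐ s ∂ν, |s| ≤ R)
    (h2 : ∀ a : ℝ, ν {a} < 1) (lam : ℝ) (hl : lam ≠ 0) :
    ∀ᵐ ω ∂(Measure.infinitePi fun _ : Fin d → ℤ => ν), Q (fun x => lam * ω x) := by
  have hm : Measurable fun s : ℝ => lam * s := by fun_prop
  have : IsProbabilityMeasure (ν.map fun s => lam * s) :=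
    Measure.isProbabilityMeasure_map hm.aemeasurable
  refine scale_ae (h (ν.map fun s => lam * s) ?_ ?_)
  · obtain ⟨R, hR⟩ := h1
    refine ⟨|lam| * R, ?_⟩
    rw [Measure.map_apply hm measurableSet_Icc.compl]
    refine measure_mono_null ?_ (ae_iff.1 hR)
    intro s hs
    simp only [Set.mem_preimage, Set.mem_compl_iff, Set.mem_Icc, ← abs_le, abs_mul] at hs
    simp only [Set.mem_ofPred_eq]
    intro h3
    exact hs (mul_le_mul_of_nonneg_left h3 (abs_nonneg _))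
  · intro a
    rw [Measure.map_apply hm (measurableSet_singleton a)]
    refine lt_of_le_of_lt (measure_mono ?_) (h2 (a / lam))
    intro s hs
    simp only [Set.mem_preimage, Set.mem_singleton_iff] at hs ⊢
    field_simp
    linarith

theorem fin_gen (d : ℕ) (p : ℝ≥0∞) [Fact (1 ≤ p)] (hd : 0 < d) (hp : p < 2) :
    ∃ 𝒢 : Set (Lp ℝ p (volume : Measure (UnitAddTorus (Fin d)))), IsGδ 𝒢 ∧ Dense 𝒢 ∧
      ∀ K ∈ 𝒢, ∀ (ν : Measure ℝ) [IsProbabilityMeasure ν], (∃ R : ℝ, ∀ᵐ s ∂ν, |s| ≤ R) →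
        (∀ a : ℝ, ν {a} < 1) → ∀ lam : ℝ, lam ≠ 0 →
        ∀ᵐ ω ∂(Measure.infinitePi fun _ : Fin d → ℤ => ν), NoEv K (fun x => lam * ω x) := by
  obtain ⟨𝒢, h1, h2, h3⟩ := gen_all d p hd hp
  refine ⟨𝒢, h1, h2, fun K hK ν _ hR hν lam hl => ?_⟩
  filter_upwards [fin_law (h3 K hK) ν hR hν lam hl] with ω hω
  exact noEv_of hω

theorem fin_lap (d : ℕ) (p : ℝ≥0∞) [Fact (1 ≤ p)] (hd : 0 < d) (hp : p < 2) :
    ∃ 𝒢 : Set (Lp ℝ p (dos d)), IsGδ 𝒢 ∧ Dense 𝒢 ∧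
      ∀ f ∈ 𝒢, ∀ (ν : Measure ℝ) [IsProbabilityMeasure ν], (∃ R : ℝ, ∀ᵐ s ∂ν, |s| ≤ R) →
        (∀ a : ℝ, ν {a} < 1) → ∀ lam : ℝ, lam ≠ 0 →
        ∀ᵐ ω ∂(Measure.infinitePi fun _ : Fin d → ℤ => ν),
          NoEv (fun k => f (lap d k)) (fun x => lam * ω x) := by
  obtain ⟨𝒢, h1, h2, h3⟩ := gen_lap Pool.Agent.Y663.W5.f5_all key_all transl_all vrpos d p hd hp
  refine ⟨𝒢, h1, h2, fun K hK ν _ hR hν lam hl => ?_⟩
  filter_upwards [fin_law (h3 K hK) ν hR hν lam hl] with ω hω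
  exact noEv_of hω

end

end Pool.Agent.Y663.GK
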