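import Pool.Agent.Y663.GK.Stm

/-!
# GK: the Baire category argument
-/

set_option autoImplicit false

namespace Pool.Agent.Y663.GK

open MeasureTheory Filter UnitAddTorus Pool.Agent.W792.LL Pool.Agent.W792.WA
open scoped Topology ENNReal ComplexConjugate

noncomputable section

lemma gen_sites {ν : Measure ℝ} [IsProbabilityMeasure ν] {R : ℝ} (h : ν (Set.Icc (-R) R)ᶜ = 0)
    (Γ : Type) [Countable Γ] : ∀ᵐ v ∂(Pn ν Γ), ∀ x, |v x| ≤ R := by
  rw [ae_all_iff]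
  intro x
  have h1 : ∀ᵐ s ∂ν, |s| ≤ R := by
    rw [ae_iff]
    convert h using 2
    ext s
    simp [abs_le]
  have h2 : MeasurePreserving (fun v : Γ → ℝ => v x) (Pn ν Γ) ν :=
    measurePreserving_eval_infinitePi (fun _ : Γ => ν) x
  exact h2.quasiMeasurePreserving.ae h1

lemma gen_coeff {d : ℕ} (a : ℂ) (f : UnitAddTorus (Fin d) → ℂ) (x : Fin d → ℤ) :
    mFourierCoeff (fun k => a * f k) x = a * mFourierCoeff f x := by
  unfold mFourierCoeff
  rw [← integral_const_mul]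
  congr 1
  funext k
  simp only [smul_eq_mul]
  ring

lemma gen_scale {d : ℕ} {K : UnitAddTorus (Fin d) → ℝ} {v : (Fin d → ℤ) → ℝ} {E : ℝ}
    {f h : UnitAddTorus (Fin d) → ℂ} (hE : Eig K v E f h) (a : ℂ) :
    Eig K v E (fun k => a * f k) (fun k => a * h k) := by
  obtain ⟨h1, h2, h3, h4⟩ := hE
  refine ⟨h1.const_mul a, h2.const_mul a, fun x => ?_, ?_⟩
  · rw [gen_coeff, gen_coeff, h3]; ring
  · filter_upwards [h4] with k hk
    linear_combination a * hk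

/-- The exceptional sets. -/
def BadS {d : ℕ} (K : UnitAddTorus (Fin d) → ℝ) (n j : ℕ) : Set ((Fin d → ℤ) → ℝ) :=
  {v | (∀ x, |v x| ≤ ((n + 1 : ℕ) : ℝ)) ∧
      ∃ (E : ℝ) (f h : UnitAddTorus (Fin d) → ℂ), |E| ≤ ((n + 1 : ℕ) : ℝ) ∧ Eig K v E f h ∧
        ∫ k, ‖f k‖ ^ 2 ≤ 1 ∧ 1 / ((j : ℝ) + 1) ≤ ‖mFourierCoeff f 0‖}

/-- The Baire argument in a space `X` of kinetic energies. -/
theorem gen_abs (hK : S_KEY) (hT : S_TRANSL) (hV : S_VR) (d : ℕ) (p : ℝ≥0∞) [Fact (1 ≤ p)]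
    (X : Type) [TopologicalSpace X] [BaireSpace X]
    (T : X → Lp ℝ p (volume : Measure (UnitAddTorus (Fin d)))) (hTc : Continuous T)
    (hD : ∀ n : ℕ, 0 < n → Dense {x : X | ∃ K0 : C(UnitAddTorus (Fin d), ℝ),
      T x = ContinuousMap.toLp (E := ℝ) p volume ℝ K0 ∧
      ∀ (ν : Measure ℝ) [IsProbabilityMeasure ν], 1 / (n : ℝ) ≤ vr ν →
        ∀ᵐ v ∂(Pn ν (Fin d → ℤ)), ACIK K0 1 v (-(n : ℝ) - 1) (n + 1)}) :
    ∃ 𝒢 : Set X, IsGδ 𝒢 ∧ Dense 𝒢 ∧ ∀ x ∈ 𝒢, ∀ (ν : Measure ℝ) [IsProbabilityMeasure ν],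
        (∃ R : ℝ, ν (Set.Icc (-R) R)ᶜ = 0) → (∀ a : ℝ, ν {a} < 1) →
        ∀ᵐ v ∂(Pn ν (Fin d → ℤ)), ∀ (E : ℝ) (f h : UnitAddTorus (Fin d) → ℂ),
          Eig (T x) v E f h → f =ᵐ[volume] 0 := by
  set U : ℕ × ℕ → Set X := fun q =>
    T ⁻¹' (interior {K : Lp ℝ p (volume : Measure (UnitAddTorus (Fin d))) |
      Good (q.1 + 1) (q.2 + 1) K}) with hU
  have hUo : ∀ q, IsOpen (U q) := fun q => isOpen_interior.preimage hTc
  have hUd : ∀ q, Dense (U q) := by
    intro q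
    refine (hD (q.1 + 1) (Nat.succ_pos _)).mono ?_
    rintro x ⟨K0, hx, hAC⟩
    obtain ⟨δ, hδ, hδK⟩ := hK d p (q.1 + 1) (q.2 + 1) K0 (Nat.succ_pos _) (Nat.succ_pos _) hAC
    change T x ∈ interior {K : Lp ℝ p (volume : Measure (UnitAddTorus (Fin d))) |
      Good (q.1 + 1) (q.2 + 1) K}
    rw [hx, mem_interior]
    refine ⟨Metric.ball (ContinuousMap.toLp (E := ℝ) p volume ℝ K0) δ, ?_, Metric.isOpen_ball,
      Metric.mem_ball_self hδ⟩
    intro K hKb
    rw [Metric.mem_ball, dist_comm, dist_eq_norm] at hKb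
    exact hδK K hKb
  refine ⟨⋂ q, U q, IsGδ.iInter_of_isOpen hUo, dense_iInter_of_isOpen hUo hUd, ?_⟩
  intro x hxG ν _ hR hν
  set K := T x with hKdef
  obtain ⟨R, hR⟩ := hR
  have hvr : 0 < vr ν := hV ν hν
  refine hT d K ν ?_
  -- the exceptional sets are null
  obtain ⟨n0, hn0⟩ := exists_nat_gt (max (|R|) (1 / vr ν))
  have hn0R : |R| < n0 := (le_max_left _ _).trans_lt hn0
  have hn0v : 1 / vr ν < n0 := (le_max_right _ _).trans_lt hn0
  have hnull : ∀ (n j : ℕ), n0 ≤ n → Pn ν (Fin d → ℤ) (BadS K n j) = 0 := by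
    intro n j hn
    have hnn : (n0 : ℝ) ≤ n := by exact_mod_cast hn
    have hle : ∀ m : ℕ, j ≤ m → Pn ν (Fin d → ℤ) (BadS K n j)
          ≤ ENNReal.ofReal (1 / ((m : ℝ) + 1)) := by
      intro m hm
      have hG : Good (n + 1) (m + 1) K := by
        have h0 := Set.mem_iInter.1 hxG (n, m)
        exact interior_subset h0
      have h1 := hG ν (by
        refine measure_mono_null (Set.compl_subset_compl.2 (Set.Icc_subset_Icc ?_ ?_)) hR
        · push_cast; have := le_abs_self R; linarith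
        · push_cast; have := le_abs_self R; linarith) (by
        rw [one_div_le (by positivity) hvr]
        push_cast
        linarith)
      refine (measure_mono ?_).trans (h1.trans_eq (by push_cast; rfl))
      rintro v ⟨hv, E, f, h, hE, hEig, hf1, hf0⟩
      refine ⟨hv, E, f, h, hE, hEig, hf1, le_trans ?_ hf0⟩
      push_cast
      apply one_div_le_one_div_of_le (by positivity)
      have : (j : ℝ) ≤ m := by exact_mod_cast hm
      linarith
    have hlim : Tendsto (fun m : ℕ => ENNReal.ofReal (1 / ((m : ℝ) + 1))) atTop (𝓝 0) := by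
      rw [← ENNReal.ofReal_zero]
      exact ENNReal.tendsto_ofReal tendsto_one_div_add_atTop_nhds_zero_nat
    refine le_antisymm (ge_of_tendsto hlim ?_) bot_le
    filter_upwards [eventually_ge_atTop j] with m hm
    exact hle m hm
  have hae : ∀ᵐ v ∂(Pn ν (Fin d → ℤ)), ∀ n j : ℕ, n0 ≤ n → v ∉ BadS K n j := by
    rw [ae_all_iff]; intro n
    rw [ae_all_iff]; intro j
    rw [eventually_imp_distrib_left]
    intro hn
    exact measure_eq_zero_iff_ae_notMem.1 (hnull n j hn)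
  filter_upwards [hae, gen_sites hR (Fin d → ℤ)] with v hv hvR E f h hEig
  by_contra hne
  -- normalize
  set c : ℝ := ∫ k, ‖f k‖ ^ 2 with hc
  have hc0 : 0 ≤ c := integral_nonneg fun k => by positivity
  set a : ℝ := 1 / (1 + c) with ha
  have ha0 : 0 < a := by positivity
  have hs := gen_scale hEig (a : ℂ)
  have h1 : ∫ k, ‖(a : ℂ) * f k‖ ^ 2 ≤ 1 := by
    have : ∀ k, ‖(a : ℂ) * f k‖ ^ 2 = a ^ 2 * ‖f k‖ ^ 2 := fun k => by
      rw [norm_mul, mul_pow, Complex.norm_real, Real.norm_eq_abs, sq_abs]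
    simp_rw [this]
    rw [integral_const_mul, ← hc, ha, div_pow, one_pow, div_mul_eq_mul_div, one_mul,
      div_le_one (by positivity)]
    nlinarith
  have h2 : 0 < ‖mFourierCoeff (fun k => (a : ℂ) * f k) 0‖ := by
    rw [gen_coeff, norm_pos_iff]
    refine mul_ne_zero ?_ hne
    exact_mod_cast ha0.ne'
  obtain ⟨j, hj⟩ := exists_nat_one_div_lt h2
  obtain ⟨n1, hn1⟩ := exists_nat_gt (|E|)
  refine hv (max n0 n1) j (le_max_left _ _) ⟨fun x => (hvR x).trans ?_, E, _, _, ?_, hs, h1, hj.le⟩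
  · have h3 : (n0 : ℝ) ≤ (max n0 n1 : ℕ) := by exact_mod_cast le_max_left n0 n1
    push_cast at h3 ⊢
    have := le_abs_self R
    linarith
  · have h3 : (n1 : ℝ) ≤ (max n0 n1 : ℕ) := by exact_mod_cast le_max_right n0 n1
    push_cast at h3 ⊢
    linarith

theorem gen (hK : S_KEY) (hD : S_DENSE) (hT : S_TRANSL) (hV : S_VR) : S_GEN := by
  intro d p _ hd hp
  refine gen_abs hK hT hV d p _ id continuous_id ?_
  intro n hn
  rw [Metric.dense_iff]
  intro K1 r hr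
  obtain ⟨K0, hK0, hAC⟩ := hD d p n r K1 hd hp hn hr
  refine ⟨ContinuousMap.toLp (E := ℝ) p volume ℝ K0, ?_, K0, rfl, hAC⟩
  rw [Metric.mem_ball, dist_eq_norm]; exact hK0

end

end Pool.Agent.Y663.GK
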