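import Pool.Agent.Y663.GK.Stm

/-!
# GK: the property is open
-/

set_option autoImplicit false

namespace Pool.Agent.Y663.GK

open MeasureTheory Filter UnitAddTorus Pool.Agent.W792.LL Pool.Agent.W792.WA
open scoped Topology ENNReal ComplexConjugate

noncomputable section

lemma key_min (τ : ℕ → ℝ) (h : ∀ j, 0 < τ j) (N : ℕ) :
    ∃ τ' : ℝ, 0 < τ' ∧ ∀ j ≤ N, τ' ≤ τ j := by
  induction N with
  | zero => exact ⟨τ 0, h 0, fun j hj => by simp [Nat.le_zero.1 hj]⟩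
  | succ N ih =>
    obtain ⟨a, ha, haj⟩ := ih
    refine ⟨min a (τ (N + 1)), lt_min ha (h _), fun j hj => ?_⟩
    rcases Nat.of_le_succ hj with h1 | h1
    · exact (min_le_left _ _).trans (haj j h1)
    · rw [h1]; exact min_le_right _ _

theorem key (hS : S_SUP) (hU : S_UNI) (hP : S_PERT) (hI : S_UI) (hC : S_CHEB) :
    S_KEY := by
  intro d p _ n m K0 hn hm hAC
  have hn' : (0 : ℝ) < n := by exact_mod_cast hn
  have hm' : (0 : ℝ) < m := by exact_mod_cast hm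
  -- the continuous functions
  obtain ⟨Φ, hΦ01, hΦ, hΦlim⟩ := hS d K0 n n hn' hn'
  have hκ : (0 : ℝ) < 1 / n := by positivity
  set e : ℝ := 1 / (16 * (m : ℝ) ^ 2) with he
  have he0 : 0 < e := by positivity
  obtain ⟨N, hN⟩ := hU (Fin d → ℤ) n (1 / n) e Φ he0 hΦ01 (by
    intro ν _ _ hvr
    filter_upwards [hAC ν hvr] with v hv v' hv'
    have : (fun x => (v' x : ℝ)) = v := funext hv'
    exact hΦlim v' (by rw [this]; convert hv using 1))
  -- uniform integrability for the finitely many widths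
  set C0 : ℝ := ‖K0‖ + n + n with hC0
  have hC0' : 0 < C0 := by have := norm_nonneg K0; positivity
  set e2 : ℝ := (1 / (4 * m * C0)) ^ 2 with he2
  have he2' : 0 < e2 := by positivity
  have hj : ∀ j : ℕ, (0 : ℝ) < 1 / ((j : ℝ) + 1) := fun j => by positivity
  choose τ hτ0 hτ using fun j : ℕ => hI d K0 n n (1 / ((j : ℝ) + 1)) e2 (hj j) he2'
  obtain ⟨τ', hτ'0, hτ'⟩ := key_min τ hτ0 N
  set δ₁ : ℝ := 1 / (4 * m * (N + 1)) with hδ₁
  have hδ₁' : 0 < δ₁ := by positivity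
  obtain ⟨δ, hδ, hδK⟩ := hC d p δ₁ τ' hδ₁' hτ'0
  refine ⟨δ, hδ, fun K hK => ?_⟩
  obtain ⟨B, hBm, hBv, hB⟩ := hδK K0 K hK
  intro ν _ hν hvr
  obtain ⟨j, hjN, hprob⟩ := hN ν hν hvr
  have hjN' : (j : ℝ) ≤ N := by exact_mod_cast hjN
  have he1 : e ≤ 1 / m := by
    rw [he]
    apply one_div_le_one_div_of_le hm'
    have : (1 : ℝ) ≤ m := by exact_mod_cast hm
    nlinarith
  refine (measure_mono ?_).trans (hprob.trans (ENNReal.ofReal_le_ofReal he1))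
  rintro v ⟨hv, E, f, h, hE, hEig, hf1, hf0⟩
  have hvI : ∀ x, v x ∈ Set.Icc (-(n : ℝ)) n := fun x => abs_le.1 (hv x)
  refine ⟨fun x => ⟨v x, hvI x⟩, fun x => rfl, ?_⟩
  by_contra hcon
  rw [not_lt] at hcon
  have h1 := hΦ j (fun x => ⟨v x, hvI x⟩) E hE
  have h2 := hP d K0 n v E (1 / ((j : ℝ) + 1)) δ₁ K f h B hn'.le hv (hj j) hδ₁'.le
    (Lp.aestronglyMeasurable K) hEig hf1 hBm hB
  have h3 := hτ j v E B hv hE hBm (hBv.trans (ENNReal.ofReal_le_ofReal (hτ' j hjN)))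
  -- the three terms
  have hs : (1 / ((j : ℝ) + 1)) * ‖gv K0 v ⟨E, 1 / ((j : ℝ) + 1)⟩‖ ≤ 1 / (4 * m) := by
    have h4 : ((1 / ((j : ℝ) + 1)) * ‖gv K0 v ⟨E, 1 / ((j : ℝ) + 1)⟩‖) ^ 2 ≤ (1 / (4 * m)) ^ 2 := by
      refine (h1.trans hcon).trans (le_of_eq ?_)
      rw [he]; field_simp; ring
    exact (pow_le_pow_iff_left₀ (by positivity) (by positivity) two_ne_zero).1 h4
  have ht : (‖K0‖ + |E| + n) * Real.sqrt
      (∫ k in B, ‖ft (gv K0 v ⟨E, 1 / ((j : ℝ) + 1)⟩) k‖ ^ 2) ≤ 1 / (4 * m) := by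
    have h5 : Real.sqrt (∫ k in B, ‖ft (gv K0 v ⟨E, 1 / ((j : ℝ) + 1)⟩) k‖ ^ 2)
        ≤ 1 / (4 * m * C0) := by
      apply Real.sqrt_le_iff.2 ⟨by positivity, ?_⟩
      rw [← he2]; exact h3
    have h6 : ‖K0‖ + |E| + n ≤ C0 := by rw [hC0]; linarith
    calc _ ≤ C0 * (1 / (4 * m * C0)) := by
            apply mul_le_mul h6 h5 (Real.sqrt_nonneg _) hC0'.le
      _ = 1 / (4 * m) := by field_simp
  have hu : δ₁ / (1 / ((j : ℝ) + 1)) ≤ 1 / (4 * m) := by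
    rw [hδ₁, div_div_eq_mul_div, div_one, div_mul_eq_mul_div, one_mul,
      div_le_div_iff₀ (by positivity) (by positivity)]
    have : (0 : ℝ) ≤ N - j := by linarith
    nlinarith
  have : (1 : ℝ) / m ≤ 3 * (1 / (4 * m)) := by
    refine hf0.trans (h2.trans ?_)
    linarith
  have h7 : (1 : ℝ) / m = 4 * (1 / (4 * m)) := by field_simp
  have h8 : (0 : ℝ) < 1 / (4 * m) := by positivity
  linarith

end

end Pool.Agent.Y663.GK
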