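import Pool.Agent.Y663.W5.Stm2

/-!
# Project GK: generic kinetic energies have no eigenvalues

For a dense `G_δ` set of kinetic energies `K ∈ L^p(T^d)`, `1 ≤ p < 2`, the operator
`K(-i∇) + v` has no eigenvalues, almost surely, for every compactly supported law of the potential.
Statements of the parts.
-/

set_option autoImplicit false

namespace Pool.Agent.Y663.GK

open MeasureTheory Filter UnitAddTorus Pool.Agent.W792.LL Pool.Agent.W792.WA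
open scoped Topology ENNReal ComplexConjugate

noncomputable section

/-- `f` is the momentum representation of an eigenfunction (or `0`) of `K(-i∇) + v`, with
eigenvalue `E`; `h` is the momentum representation of `v f`. -/
def Eig {d : ℕ} (K : UnitAddTorus (Fin d) → ℝ) (v : (Fin d → ℤ) → ℝ) (E : ℝ)
    (f h : UnitAddTorus (Fin d) → ℂ) : Prop :=
  MemLp f 2 volume ∧ MemLp h 2 volume ∧ (∀ x, mFourierCoeff h x = (v x : ℂ) * mFourierCoeff f x) ∧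
    ∀ᵐ k, (K k : ℂ) * f k + h k = (E : ℂ) * f k

open Classical in
/-- The square integrable function with Fourier coefficients `u` (see `S_FT`). -/
def ft {d : ℕ} (u : l2 (Fin d → ℤ)) : UnitAddTorus (Fin d) → ℂ :=
  if h : ∃ f : UnitAddTorus (Fin d) → ℂ, MemLp f 2 volume ∧ ∀ x, mFourierCoeff f x = u x
  then Classical.choose h else 0

open Classical in
/-- The resolvent vector `(H - z)⁻¹ δ₀` of `H = K0(-i∇) + v` (see `S_RES`). -/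
def gv {d : ℕ} (K0 : C(UnitAddTorus (Fin d), ℝ)) (v : (Fin d → ℤ) → ℝ) (z : ℂ) :
    l2 (Fin d → ℤ) :=
  if h : ∃ g : l2 (Fin d → ℤ), Sol (hopK K0) 1 v z 0 (fun x => g x) then Classical.choose h else 0

/-- Fourier series: existence, uniqueness, Parseval, multiplication by a continuous symbol. -/
def S_FT : Prop :=
  ∀ d : ℕ,
    (∀ u : l2 (Fin d → ℤ), MemLp (ft u) 2 volume ∧ (∀ x, mFourierCoeff (ft u) x = u x) ∧
      ∫ k, ‖ft u k‖ ^ 2 = ‖u‖ ^ 2) ∧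
    (∀ u w : l2 (Fin d → ℤ), ft (u - w) =ᵐ[volume] fun k => ft u k - ft w k) ∧
    (∀ f : UnitAddTorus (Fin d) → ℂ, MemLp f 2 volume →
      ∃ u : l2 (Fin d → ℤ), (∀ x, mFourierCoeff f x = u x) ∧ f =ᵐ[volume] ft u) ∧
    (∀ f g : UnitAddTorus (Fin d) → ℂ, MemLp f 2 volume → MemLp g 2 volume →
      HasSum (fun x => conj (mFourierCoeff f x) * mFourierCoeff g x) (∫ k, conj (f k) * g k)) ∧
    (∀ (K0 : C(UnitAddTorus (Fin d), ℝ)) (f : UnitAddTorus (Fin d) → ℂ), MemLp f 2 volume →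
      MemLp (fun k => (K0 k : ℂ) * f k) 2 volume ∧
      ∀ x, HasSum (fun y => hopK K0 (x - y) * mFourierCoeff f y)
        (mFourierCoeff (fun k => (K0 k : ℂ) * f k) x))

/-- The operator `K0(-i∇) + v` on `ℓ²`, for bounded `v`. -/
def S_OPH : Prop :=
  ∀ (d : ℕ) (K0 : C(UnitAddTorus (Fin d), ℝ)) (n : ℝ) (v : (Fin d → ℤ) → ℝ), (∀ x, |v x| ≤ n) →
    ∃ H : l2 (Fin d → ℤ) →L[ℂ] l2 (Fin d → ℤ),
      (∀ (u : l2 (Fin d → ℤ)) (x : Fin d → ℤ),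
        H u x = (∑' y, hopK K0 (x - y) * u y) + (v x : ℂ) * u x) ∧
      (∀ a b : l2 (Fin d → ℤ), inner ℂ (H a) b = inner ℂ a (H b)) ∧
      ∀ z : ℂ, 0 < z.im → (∀ u : l2 (Fin d → ℤ), z.im * ‖u‖ ≤ ‖H u - z • u‖) ∧
        ∀ f : l2 (Fin d → ℤ), ∃ u : l2 (Fin d → ℤ), H u - z • u = f

/-- The resolvent vector. -/
def S_RES : Prop :=
  ∀ (d : ℕ) (K0 : C(UnitAddTorus (Fin d), ℝ)) (n : ℝ) (v : (Fin d → ℤ) → ℝ) (z : ℂ),
    (∀ x, |v x| ≤ n) → 0 < z.im →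
    Sol (hopK K0) 1 v z 0 (fun x => gv K0 v z x) ∧
    (∀ w : (Fin d → ℤ) → ℂ, Sol (hopK K0) 1 v z 0 w → w = fun x => gv K0 v z x) ∧
    z.im * ‖gv K0 v z‖ ^ 2 = (gv K0 v z 0).im ∧ z.im * ‖gv K0 v z‖ ≤ 1

/-- Continuity of the resolvent vector in the potential (product topology) and the energy. -/
def S_CONT : Prop :=
  ∀ (d : ℕ) (K0 : C(UnitAddTorus (Fin d), ℝ)) (n η : ℝ), 0 < η →
    ContinuousOn (fun q : ((Fin d → ℤ) → ℝ) × ℝ => gv K0 q.1 ⟨q.2, η⟩)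
      ({v : (Fin d → ℤ) → ℝ | ∀ x, |v x| ≤ n} ×ˢ Set.univ)

/-- The pairing identity: Green's formula for the resolvent vector. -/
def S_PAIR : Prop :=
  ∀ (d : ℕ) (K0 : C(UnitAddTorus (Fin d), ℝ)) (n : ℝ) (v : (Fin d → ℤ) → ℝ) (z : ℂ)
    (f h : UnitAddTorus (Fin d) → ℂ),
    (∀ x, |v x| ≤ n) → 0 < z.im → MemLp f 2 volume → MemLp h 2 volume →
    (∀ x, mFourierCoeff h x = (v x : ℂ) * mFourierCoeff f x) →
    mFourierCoeff f 0 = ∫ k, conj (ft (gv K0 v z) k) * (((K0 k : ℂ) - conj z) * f k + h k)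

/-- Perturbation of the kinetic energy: the value at the origin of an eigenfunction. -/
def S_PERT : Prop :=
  ∀ (d : ℕ) (K0 : C(UnitAddTorus (Fin d), ℝ)) (n : ℝ) (v : (Fin d → ℤ) → ℝ) (E η δ : ℝ)
    (K : UnitAddTorus (Fin d) → ℝ) (f h : UnitAddTorus (Fin d) → ℂ)
    (B : Set (UnitAddTorus (Fin d))), 0 ≤ n → (∀ x, |v x| ≤ n) → 0 < η → 0 ≤ δ →
    AEStronglyMeasurable K volume → Eig K v E f h → ∫ k, ‖f k‖ ^ 2 ≤ 1 → MeasurableSet B →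
    (∀ k, k ∉ B → |K k - K0 k| ≤ δ) →
    ‖mFourierCoeff f 0‖ ≤ η * ‖gv K0 v ⟨E, η⟩‖
      + (‖K0‖ + |E| + n) * Real.sqrt (∫ k in B, ‖ft (gv K0 v ⟨E, η⟩) k‖ ^ 2) + δ / η

/-- Uniform integrability of the resolvent vectors. -/
def S_UI : Prop :=
  ∀ (d : ℕ) (K0 : C(UnitAddTorus (Fin d), ℝ)) (n R η ε : ℝ), 0 < η → 0 < ε →
    ∃ τ : ℝ, 0 < τ ∧ ∀ (v : (Fin d → ℤ) → ℝ) (E : ℝ) (B : Set (UnitAddTorus (Fin d))),
      (∀ x, |v x| ≤ n) → |E| ≤ R → MeasurableSet B → volume B ≤ ENNReal.ofReal τ →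
      ∫ k in B, ‖ft (gv K0 v ⟨E, η⟩) k‖ ^ 2 ≤ ε

/-- The largest mass in a small window of energies, as a continuous function of the potential. -/
def S_SUP : Prop :=
  ∀ (d : ℕ) (K0 : C(UnitAddTorus (Fin d), ℝ)) (n R : ℝ), 0 < n → 0 < R →
    ∃ Φ : ℕ → C((Fin d → ℤ) → Set.Icc (-n) n, ℝ), (∀ j v, 0 ≤ Φ j v ∧ Φ j v ≤ 1) ∧
      (∀ (j : ℕ) (v : (Fin d → ℤ) → Set.Icc (-n) n) (E : ℝ), |E| ≤ R →
        ((1 / (j + 1 : ℝ)) * ‖gv K0 (fun x => (v x : ℝ)) ⟨E, 1 / (j + 1 : ℝ)⟩‖) ^ 2 ≤ Φ j v) ∧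
      ∀ v : (Fin d → ℤ) → Set.Icc (-n) n, ACIK K0 1 (fun x => (v x : ℝ)) (-R - 1) (R + 1) →
        Tendsto (fun j => Φ j v) atTop (𝓝 0)

/-- Product measures depend continuously on the law. -/
def S_WEAK : Prop :=
  ∀ (Γ : Type) [Countable Γ] (n : ℝ) (Φ : C(Γ → Set.Icc (-n) n, ℝ)),
    Continuous fun ν : ProbabilityMeasure (Set.Icc (-n) n) =>
      ∫ v, Φ v ∂(Measure.infinitePi fun _ : Γ => (ν : Measure (Set.Icc (-n) n)))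

/-- Compactness of the set of laws. -/
def S_CPT : Prop :=
  ∀ (Γ : Type) [Countable Γ] (n κ ε : ℝ) (Φ : ℕ → C(Γ → Set.Icc (-n) n, ℝ)), 0 < ε →
    (∀ j v, 0 ≤ Φ j v ∧ Φ j v ≤ 1) →
    (∀ ν : ProbabilityMeasure (Set.Icc (-n) n),
      κ ≤ vr ((ν : Measure (Set.Icc (-n) n)).map Subtype.val) →
      ∀ᵐ v ∂(Measure.infinitePi fun _ : Γ => (ν : Measure (Set.Icc (-n) n))),
        Tendsto (fun j => Φ j v) atTop (𝓝 0)) →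
    ∃ N : ℕ, ∀ ν : ProbabilityMeasure (Set.Icc (-n) n),
      κ ≤ vr ((ν : Measure (Set.Icc (-n) n)).map Subtype.val) →
      ∃ j ≤ N, ∫ v, Φ j v ∂(Measure.infinitePi fun _ : Γ => (ν : Measure (Set.Icc (-n) n))) ≤ ε

/-- Laws on `ℝ` carried by `[-n, n]`. -/
def S_TRF : Prop :=
  ∀ (Γ : Type) [Countable Γ] (n : ℝ) (ν : Measure ℝ) [IsProbabilityMeasure ν],
    ν (Set.Icc (-n) n)ᶜ = 0 → ∃ ν' : ProbabilityMeasure (Set.Icc (-n) n),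
      (ν' : Measure (Set.Icc (-n) n)).map Subtype.val = ν ∧
      Pn ν Γ = (Measure.infinitePi fun _ : Γ => (ν' : Measure (Set.Icc (-n) n))).map
        fun (v : Γ → Set.Icc (-n) n) (x : Γ) => (v x : ℝ)

/-- Uniformity in the law. -/
def S_UNI : Prop :=
  ∀ (Γ : Type) [Countable Γ] (n κ ε : ℝ) (Φ : ℕ → C(Γ → Set.Icc (-n) n, ℝ)), 0 < ε →
    (∀ j v, 0 ≤ Φ j v ∧ Φ j v ≤ 1) →
    (∀ (ν : Measure ℝ) [IsProbabilityMeasure ν], ν (Set.Icc (-n) n)ᶜ = 0 → κ ≤ vr ν →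
      ∀ᵐ v ∂(Pn ν Γ), ∀ v' : Γ → Set.Icc (-n) n, (∀ x, (v' x : ℝ) = v x) →
        Tendsto (fun j => Φ j v') atTop (𝓝 0)) →
    ∃ N : ℕ, ∀ (ν : Measure ℝ) [IsProbabilityMeasure ν], ν (Set.Icc (-n) n)ᶜ = 0 → κ ≤ vr ν →
      ∃ j ≤ N, Pn ν Γ {v | ∃ v' : Γ → Set.Icc (-n) n, (∀ x, (v' x : ℝ) = v x) ∧ ε < Φ j v'}
        ≤ ENNReal.ofReal ε

/-- The kinetic energies of the theorem at arbitrary disorder are dense. -/
def S_DENSE : Prop :=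
  ∀ (d : ℕ) (p : ℝ≥0∞) [Fact (1 ≤ p)] (n : ℕ) (ε : ℝ)
    (K1 : Lp ℝ p (volume : Measure (UnitAddTorus (Fin d)))), 0 < d → p < 2 → 0 < n → 0 < ε →
    ∃ K0 : C(UnitAddTorus (Fin d), ℝ), ‖ContinuousMap.toLp (E := ℝ) p volume ℝ K0 - K1‖ < ε ∧
      ∀ (ν : Measure ℝ) [IsProbabilityMeasure ν], 1 / (n : ℝ) ≤ vr ν →
        ∀ᵐ v ∂(Pn ν (Fin d → ℤ)), ACIK K0 1 v (-(n : ℝ) - 1) (n + 1)

/-- Small changes in `L^p` change the kinetic energy little outside a small set. -/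
def S_CHEB : Prop :=
  ∀ (d : ℕ) (p : ℝ≥0∞) [Fact (1 ≤ p)] (δ τ : ℝ), 0 < δ → 0 < τ → ∃ δ' : ℝ, 0 < δ' ∧
    ∀ (K0 : C(UnitAddTorus (Fin d), ℝ)) (K : Lp ℝ p (volume : Measure (UnitAddTorus (Fin d)))),
      ‖ContinuousMap.toLp (E := ℝ) p volume ℝ K0 - K‖ < δ' →
      ∃ B : Set (UnitAddTorus (Fin d)), MeasurableSet B ∧ volume B ≤ ENNReal.ofReal τ ∧
        ∀ k, k ∉ B → |K k - K0 k| ≤ δ

/-- The value at the origin of the normalized eigenfunctions is small with large probability. -/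
def Good {d : ℕ} (n m : ℕ) (K : UnitAddTorus (Fin d) → ℝ) : Prop :=
  ∀ (ν : Measure ℝ) [IsProbabilityMeasure ν], ν (Set.Icc (-(n : ℝ)) n)ᶜ = 0 → 1 / (n : ℝ) ≤ vr ν →
    Pn ν (Fin d → ℤ) {v | (∀ x, |v x| ≤ n) ∧ ∃ (E : ℝ) (f h : UnitAddTorus (Fin d) → ℂ),
      |E| ≤ n ∧ Eig K v E f h ∧ ∫ k, ‖f k‖ ^ 2 ≤ 1 ∧ 1 / (m : ℝ) ≤ ‖mFourierCoeff f 0‖}
      ≤ ENNReal.ofReal (1 / (m : ℝ))

/-- The property is open. -/
def S_KEY : Prop :=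
  ∀ (d : ℕ) (p : ℝ≥0∞) [Fact (1 ≤ p)] (n m : ℕ) (K0 : C(UnitAddTorus (Fin d), ℝ)), 0 < n → 0 < m →
    (∀ (ν : Measure ℝ) [IsProbabilityMeasure ν], 1 / (n : ℝ) ≤ vr ν →
        ∀ᵐ v ∂(Pn ν (Fin d → ℤ)), ACIK K0 1 v (-(n : ℝ) - 1) (n + 1)) →
    ∃ δ : ℝ, 0 < δ ∧ ∀ K : Lp ℝ p (volume : Measure (UnitAddTorus (Fin d))),
      ‖ContinuousMap.toLp (E := ℝ) p volume ℝ K0 - K‖ < δ → Good n m K

/-- Translation invariance. -/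
def S_TRANSL : Prop :=
  ∀ (d : ℕ) (K : UnitAddTorus (Fin d) → ℝ) (ν : Measure ℝ) [IsProbabilityMeasure ν],
    (∀ᵐ v ∂(Pn ν (Fin d → ℤ)), ∀ (E : ℝ) (f h : UnitAddTorus (Fin d) → ℂ),
      Eig K v E f h → mFourierCoeff f 0 = 0) →
    ∀ᵐ v ∂(Pn ν (Fin d → ℤ)), ∀ (E : ℝ) (f h : UnitAddTorus (Fin d) → ℂ),
      Eig K v E f h → f =ᵐ[volume] 0

/-- Nondegenerate laws. -/
def S_VR : Prop :=
  ∀ (ν : Measure ℝ) [IsProbabilityMeasure ν], (∀ a : ℝ, ν {a} < 1) → 0 < vr ν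

/-- The theorem. -/
def S_GEN : Prop :=
  ∀ (d : ℕ) (p : ℝ≥0∞) [Fact (1 ≤ p)], 0 < d → p < 2 →
    ∃ 𝒢 : Set (Lp ℝ p (volume : Measure (UnitAddTorus (Fin d)))), IsGδ 𝒢 ∧ Dense 𝒢 ∧
      ∀ K ∈ 𝒢, ∀ (ν : Measure ℝ) [IsProbabilityMeasure ν],
        (∃ R : ℝ, ν (Set.Icc (-R) R)ᶜ = 0) → (∀ a : ℝ, ν {a} < 1) →
        ∀ᵐ v ∂(Pn ν (Fin d → ℤ)), ∀ (E : ℝ) (f h : UnitAddTorus (Fin d) → ℂ),
          Eig K v E f h → f =ᵐ[volume] 0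

end

end Pool.Agent.Y663.GK
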